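import Pool.Agent.J4H27.AB.Rep
import Pool.Agent.TH954.Z.Hyp

/-!
# The auxiliary form in a point and its small translates
-/

set_option autoImplicit false
set_option linter.unusedSectionVars false

open MvPolynomial Pool.Agent.TH954.X Pool.Agent.TH954.V Pool.Agent.TH954.Z

namespace Pool.Agent.J4H27.AB

/-- the groups of variables: the points `Q j` and the point `y` -/
abbrev Gr (L β : ℕ) : Type := (Fin L × Fin β) ⊕ Fin β

section pull

variable {K : Type} [Field K] {ι κ : Type} [Fintype ι] [Fintype κ] [DecidableEq ι] {n : ℕ}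

lemma MH_pull' (φ : κ → ι) {d : κ → ℕ} {g : MvPolynomial (κ × Fin n) K} (hg : MH d g) :
    MH (fun j => ∑ l, d l * if φ l = j then 1 else 0) (Dns.pull φ g) := by
  classical
  unfold Dns.pull
  convert MH_cmp hg (fun l c => X (φ l, c)) (fun l j => if φ l = j then 1 else 0)
    (fun l c => by convert Dns.MH_X (K := K) (φ l) c)

end pull

section forms

variable {K : Type} [Field K] {n β : ℕ} (A : Fin β → AbV K n)

/-- the blocks -/
noncomputable def Bl (L : ℕ) : Gr L β → Blk K n :=
  Sum.elim (fun p => (A p.2).toAbR.blk) (fun b => (A b).toAbR.blk)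

/-- the two groups `y` and `Q j` -/
def pr {L β : ℕ} (j : Fin L) (b : Fin β) : Fin 2 → Gr L β := ![Sum.inr b, Sum.inl (j, b)]

/-- the forms for the subtraction of `Q j`, with rows `c0` -/
noncomputable def Cc {L : ℕ} (j : Fin L) (c0 : Fin β → Fin n) :
    Gr L β → Fin n → MvPolynomial (Gr L β × Fin n) K :=
  Sum.elim (fun p c => X (Sum.inl p, c)) (fun b c => Dns.pull (pr j b) ((A b).Λ (c0 b) c))

/-- the multidegree in `Q` of the composite -/
def sj {L β : ℕ} (j : Fin L) (T : ℕ) (r0 : Fin β → ℕ) (p : Fin L × Fin β) : ℕ :=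
  T + if p.1 = j then 2 * r0 p.2 else 0

lemma ev_Cc {L : ℕ} (j : Fin L) (c0 : Fin β → Fin n) {F : Type} [Field F] [Algebra K F]
    (u : Gr L β → Fin n → F) (b : Fin β) (c : Fin n) :
    ev (Cc A j c0 (Sum.inr b) c) u =
      ev ((A b).Λ (c0 b) c) ![u (Sum.inr b), u (Sum.inl (j, b))] := by
  unfold Cc
  rw [Sum.elim_inr, Dns.ev_pull]
  congr 1
  funext l
  fin_cases l <;> rfl

lemma ev_Cc' {L : ℕ} (j : Fin L) (c0 : Fin β → Fin n) {F : Type} [Field F] [Algebra K F]
    (u : Gr L β → Fin n → F) (p : Fin L × Fin β) (c : Fin n) :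
    ev (Cc A j c0 (Sum.inl p) c) u = u (Sum.inl p) c := by
  unfold Cc
  rw [Sum.elim_inl]
  simp [ev]

lemma MH_Cc {L : ℕ} (j : Fin L) (c0 : Fin β → Fin n) (l : Gr L β) (c : Fin n) :
    MH (Sum.elim (fun p => fun l' : Gr L β => if Sum.inl p = l' then 1 else 0)
      (fun b => fun l' : Gr L β => ∑ x : Fin 2, 2 * if pr j b x = l' then 1 else 0) l)
      (Cc A j c0 l c) := by
  classical
  rcases l with p | b
  · simp only [Sum.elim_inl]
    unfold Cc
    rw [Sum.elim_inl]
    convert Dns.MH_X (K := K) (ι := Gr L β) (n := n) (Sum.inl p) c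
  · simp only [Sum.elim_inr]
    unfold Cc
    rw [Sum.elim_inr]
    exact MH_pull' (pr j b) ((A b).Λ_hom (c0 b) c)

lemma MH_cmpCc {L : ℕ} (j : Fin L) (c0 : Fin β → Fin n) {T : ℕ} {r0 : Fin β → ℕ}
    {G : MvPolynomial (Gr L β × Fin n) K} (hG : MH (Sum.elim (fun _ => T) r0) G) :
    MH (Sum.elim (sj j T r0) (fun b => 2 * r0 b)) (cmp G (Cc A j c0)) := by
  classical
  have h := MH_cmp hG (Cc A j c0) _ (fun l c => MH_Cc A j c0 l c)
  convert h using 1
  funext l
  rw [Fintype.sum_sum_type]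
  simp only [Sum.elim_inl, Sum.elim_inr, Fin.sum_univ_two, pr, Matrix.cons_val_zero,
    Matrix.cons_val_one]
  rcases l with p | b
  · simp only [Sum.elim_inl, Sum.inl.injEq, reduceCtorEq, if_false, mul_zero, zero_add]
    rw [Finset.sum_eq_single p]
    · simp only [if_true, mul_one]
      unfold sj
      congr 1
      by_cases hp : p.1 = j
      · rw [if_pos hp, Finset.sum_eq_single p.2]
        · rw [if_pos (by rw [← hp])]
          ring
        · intro b _ hb
          rw [if_neg (fun h => hb (by rw [← h]))]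
          ring
        · simp
      · rw [if_neg hp]
        symm
        refine Finset.sum_eq_zero (fun b _ => ?_)
        rw [if_neg (fun h => hp (by rw [← h]))]
        ring
    · intro p' _ hp'
      rw [if_neg hp']
      ring
    · simp
  · simp only [Sum.elim_inr, Sum.inr.injEq, reduceCtorEq, if_false, mul_zero, add_zero,
      Finset.sum_const_zero, zero_add]
    rw [Finset.sum_eq_single b]
    · simp only [if_true, mul_one]
      ring
    · intro b' _ hb'
      rw [if_neg hb']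
      ring
    · simp

end forms

section aux

variable {K : Type} [Field K] {n β : ℕ}

lemma MH_base {L T : ℕ} {r0 : Fin β → ℕ}
    {ψ : MvPolynomial ((Fin L × Fin β) × Fin n) K} {m : MvPolynomial (Fin β × Fin n) K}
    (hψ : MH (fun _ => T) ψ) (hm : MH r0 m) :
    MH (Sum.elim (fun _ => T) r0)
      (Dns.pull (Sum.inl : (Fin L × Fin β) → Gr L β) ψ *
        Dns.pull (Sum.inr : Fin β → Gr L β) m) := by
  classical
  have h := MH_mul (MH_pull' (Sum.inl : (Fin L × Fin β) → Gr L β) hψ)
    (MH_pull' (Sum.inr : Fin β → Gr L β) hm)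
  convert h using 1
  funext l
  rcases l with p | b
  · simp
  · simp

lemma auxG (A : Fin β → AbV K n) {t : ℕ} (F : Fin t → Type) [∀ i, Field (F i)]
    [∀ i, Algebra K (F i)] (P : ∀ i, Bp A (F i))
    (htd : ∀ i, td (K := K) (vc (P i)) + ((2 : ℕ) : Cardinal) ≤
      ((∑ b, (A b).dim : ℕ) : Cardinal)) :
    ∃ C : ℕ, ∀ L : ℕ, ∃ (D T : ℕ) (r0 : Fin β → ℕ) (G : MvPolynomial (Gr L β × Fin n) K),
      D ^ 2 ≤ C * (L + 1) ∧ (∀ b, r0 b ≤ D) ∧ MH (Sum.elim (fun _ => T) r0) G ∧
      Gen.N (Bl A L) G ∧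
      ∀ (j : Fin L) (c0 : Fin β → Fin n), ∃ (h : ℕ)
        (φ : Fin h → MvPolynomial ((Fin L × Fin β) × Fin n) K)
        (γ : Fin h → MvPolynomial (Fin β × Fin n) K),
        (∀ k, MH (sj j T r0) (φ k)) ∧ (∀ k, MH (fun b => 2 * r0 b) (γ k)) ∧
        (∀ k i, ev (γ k) (vc (P i)) = 0) ∧
        ∀ (E : Type) [Field E] [Algebra K E] (Q : Fin L × Fin β → Fin n → E)
          (y : Fin β → Fin n → E), (∀ p, Gen.Pv ((A p.2).toAbR.blk) (Q p)) →
          ev (cmp G (Cc A j c0)) (Sum.elim Q y) = ∑ k, ev (φ k) Q * ev (γ k) y := by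
  classical
  rcases Nat.eq_zero_or_pos t with rfl | ht
  · refine ⟨0, fun L => ⟨0, 0, fun _ => 0, 1, by simp, fun _ => le_rfl, ?_, ?_, ?_⟩⟩
    · have h : (Sum.elim (fun _ => 0) (fun _ => 0) : Gr L β → ℕ) = fun _ => 0 := by
        funext l
        rcases l with p | b <;> rfl
      rw [h]
      exact MH_one
    · refine (Gen.N_z0 (Bl A L) (fun i => ?_)).2
      rcases i with p | b
      · intro F _ _ g a hg h0
        exact (A p.2).ind F g a hg h0
      · intro F _ _ g a hg h0
        exact (A b).ind F g a hg h0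
    · intro j c0
      refine ⟨1, fun _ => 1, fun _ => 1, fun _ => ?_, fun _ => ?_, fun _ i => i.elim0, ?_⟩
      · have h : sj j 0 (fun _ : Fin β => 0) = fun _ => 0 := by
          funext p
          simp [sj]
        rw [h]
        exact MH_one
      · have h : (fun _ : Fin β => 2 * 0) = fun _ => 0 := by simp
        rw [h]
        exact MH_one
      · intro E _ _ Q y _
        simp [ev, Pool.Agent.TH954.X.cmp]
  set g : ℕ := ∑ b, (A b).dim with hg
  have h2g : 2 ≤ g := by
    have h1 := (self_le_add_left _ _).trans (htd ⟨0, ht⟩)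
    exact_mod_cast h1
  obtain ⟨y, hy⟩ : ∃ y, g = y + 2 := ⟨g - 2, by omega⟩
  have htr : ∀ i, Algebra.trdeg K (IntermediateField.adjoin K
      (Set.range (fun p : Fin β × Fin n => vc (P i) p.1 p.2))) ≤ (y : Cardinal) := by
    intro i
    have h1 := htd i
    rw [hy, Nat.cast_add] at h1
    exact (Cardinal.add_le_add_iff_of_lt_aleph0 (Cardinal.natCast_lt_aleph0 (n := 2))).mp h1
  choose c0' hc0' using fun i => Hil.hilb K (F i) (Fin β × Fin n)
    (fun p : Fin β × Fin n => vc (P i) p.1 p.2) y (htr i)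
  set c1 : ℕ := ∑ i, c0' i with hc1
  set nb : ℕ := Fintype.card (Fin β → Fin n) with hnb
  refine ⟨g ^ 2 * (2 * nb * c1 * (1 + 2 * g) ^ y), fun L => ?_⟩
  set D' : ℕ := Nat.sqrt (2 * nb * c1 * (1 + 2 * g) ^ y * L) with hD'
  -- the generic vector
  let CJ : Fin L × Fin β → Blk K n := fun p => (A p.2).toAbR.blk
  let CI : Fin β → Blk K n := fun b => (A b).toAbR.blk
  have hirr : ∀ b, ((A b).toAbR.blk).Irr := fun b => by
    intro F _ _ g h a b' hg hh h1 h2
    exact (A b).irr F g h a b' hg hh h1 h2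
  have hind : ∀ b, ((A b).toAbR.blk).Ind := fun b => by
    intro F _ _ g a hg h0
    exact (A b).ind F g a hg h0
  obtain ⟨Ω, iΩ, iKΩ, -, u, hu, hgen⟩ := Gen.generic CJ (fun p => hirr p.2) (fun p => hind p.2)
  have hu1 : ∀ j, ∃ c, u j c = 1 := by
    intro j
    obtain ⟨Pj, hPj⟩ := hu j
    obtain ⟨c, hc, -⟩ := (CJ j).normed Ω Pj
    rw [hPj] at hc
    exact ⟨c, hc⟩
  obtain ⟨T, hT1, hT2⟩ := exists_growth (K := K) (u := u) hu1 (2 * (g * D'))
  set r0 : Fin β → ℕ := fun b => (CI b).g * D' with hr0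
  have hdimg : ∀ b, (CI b).g ≤ g := fun b =>
    Finset.single_le_sum (f := fun b => (A b).dim) (fun _ _ => Nat.zero_le _)
      (Finset.mem_univ b)
  have hsj : ∀ (j : Fin L) (p : Fin L × Fin β), sj j T r0 p ≤ T + 2 * (g * D') := by
    intro j p
    unfold sj
    have h1 : r0 p.2 ≤ g * D' := Nat.mul_le_mul_right _ (hdimg p.2)
    split_ifs <;> omega
  have hfin : ∀ σ : Fin L × Fin β → ℕ, Module.Finite K (vs K u σ) := fun σ => vs_fin u σ
  have hhj : ∀ j : Fin L, Module.finrank K (vs K u (sj j T r0)) ≤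
      2 * Module.finrank K (vs K u (fun _ => T)) := fun j =>
    (Submodule.finrank_mono (vs_mono hu1 (hsj j))).trans hT1
  obtain ⟨h0, hh0, ψ, hψ1, hψ2⟩ : ∃ (h0 : ℕ)
      (_ : Module.finrank K (vs K u (fun _ => T)) = h0)
      (ψ : Fin h0 → MvPolynomial ((Fin L × Fin β) × Fin n) K), (∀ k, MH (fun _ => T) (ψ k)) ∧
        LinearIndependent K (fun k => ev (ψ k) u) := by
    obtain ⟨ψ, -, h1, h2, -⟩ := exists_basis (K := K) u (fun _ => T)
    exact ⟨_, rfl, ψ, h1, h2⟩
  rw [hh0] at hT1 hT2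
  rw [hh0] at hhj
  choose φ ρ hφ1 hφ2 hφ3 using fun j : Fin L => exists_basis (K := K) u (sj j T r0)
  -- the unknowns
  let Box := (b : Fin β) → Fin (CI b).g → Fin (D' + 1)
  let H : Fin h0 × Box → MvPolynomial (Gr L β × Fin n) K := fun x =>
    Dns.pull (Sum.inl : (Fin L × Fin β) → Gr L β) (ψ x.1) *
      Dns.pull (Sum.inr : Fin β → Gr L β) (mb K CI D' x.2)
  have hH : ∀ x, MH (Sum.elim (fun _ => T) r0) (H x) := fun x =>
    MH_base (hψ1 x.1) (MH_mb CI D' x.2)
  set E : ℕ := ∑ b, 2 * r0 b with hE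
  let V : (i : Fin t) → Submodule K (F i) := fun i =>
    Submodule.map (aeval (R := K) (fun p : Fin β × Fin n => vc (P i) p.1 p.2)).toLinearMap
      (restrictTotalDegree (Fin β × Fin n) K E)
  have hmem : ∀ (i : Fin t) (j : Fin L) (c0 : Fin β → Fin n) (ρ' : Ω →ₗ[K] K)
      (G : MvPolynomial (Gr L β × Fin n) K), MH (Sum.elim (fun _ => T) r0) G →
      lr u ρ' (vc (P i)) (cmp G (Cc A j c0)) ∈ V i := by
    intro i j c0 ρ' G hG
    rw [lr_apply]
    refine ⟨gam u ρ' (cmp G (Cc A j c0)), ?_, rfl⟩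
    rw [SetLike.mem_coe, mem_restrictTotalDegree]
    exact totalDegree_le_of_MH (MH_gam u ρ' (MH_cmpCc A j c0 hG))
  let Ix := (x : Fin L × (Fin β → Fin n) × Fin t) × Fin (Module.finrank K (vs K u (sj x.1 T r0)))
  let μ : Fin h0 × Box → ((x : Ix) → V x.1.2.2) := fun z x =>
    ⟨lr u (ρ x.1.1 x.2) (vc (P x.1.2.2)) (cmp (H z) (Cc A x.1.1 x.1.2.1)),
      hmem _ _ _ _ _ (hH z)⟩
  have hE2 : E = 2 * g * D' := by
    rw [hE, hr0, hg]
    rw [← Finset.mul_sum, ← Finset.sum_mul, mul_assoc]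
    rfl
  have hcardBox : Fintype.card Box = (D' + 1) ^ g := by
    have h1 : Fintype.card Box = ∏ b : Fin β, (D' + 1) ^ (A b).dim := by
      rw [Fintype.card_pi]
      refine Finset.prod_congr rfl (fun b _ => ?_)
      rw [Fintype.card_fun, Fintype.card_fin, Fintype.card_fin]
      rfl
    rw [h1, Finset.prod_pow_eq_pow_sum]
  have hdep : ¬ LinearIndependent K μ := by
    intro hli
    have h1 := hli.fintype_card_le_finrank
    have h3 : Module.finrank K ((x : Ix) → V x.1.2.2) =
        ∑ x : Ix, Module.finrank K (V x.1.2.2) := Module.finrank_pi_fintype K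
    rw [h3, Fintype.card_prod, Fintype.card_fin, hcardBox] at h1
    have h31 : ∑ x : Ix, Module.finrank K (V x.1.2.2) =
        ∑ j : Fin L, ∑ _c : Fin β → Fin n, ∑ i : Fin t,
        Module.finrank K (vs K u (sj j T r0)) * Module.finrank K (V i) := by
      rw [Fintype.sum_sigma, Fintype.sum_prod_type]
      refine Finset.sum_congr rfl (fun j _ => ?_)
      rw [Fintype.sum_prod_type]
      refine Finset.sum_congr rfl (fun c _ => Finset.sum_congr rfl (fun i _ => ?_))
      change ∑ _k : Fin (Module.finrank K (vs K u (sj j T r0))), Module.finrank K (V i) = _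
      rw [Finset.sum_const, Finset.card_univ, Fintype.card_fin, smul_eq_mul]
    rw [h31] at h1
    have h4 : ∑ j : Fin L, ∑ _c : Fin β → Fin n, ∑ i : Fin t,
        Module.finrank K (vs K u (sj j T r0)) * Module.finrank K (V i) ≤
        L * (nb * (2 * h0 * (c1 * (1 + E) ^ y))) := by
      have h5 : ∀ j : Fin L, ∑ i : Fin t,
          Module.finrank K (vs K u (sj j T r0)) * Module.finrank K (V i) ≤
          2 * h0 * (c1 * (1 + E) ^ y) := by
        intro j
        rw [← Finset.mul_sum]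
        refine Nat.mul_le_mul (hhj j) ?_
        rw [hc1, Finset.sum_mul]
        refine Finset.sum_le_sum (fun i _ => ?_)
        have h6 := hc0' i E
        rw [add_comm E 1] at h6
        exact h6
      calc _ ≤ ∑ j : Fin L, ∑ _c : Fin β → Fin n, 2 * h0 * (c1 * (1 + E) ^ y) :=
            Finset.sum_le_sum (fun j _ => Finset.sum_le_sum (fun _ _ => h5 j))
        _ = L * (nb * (2 * h0 * (c1 * (1 + E) ^ y))) := by
            rw [Finset.sum_const, Finset.card_univ, Fintype.card_fin, smul_eq_mul,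
              Finset.sum_const, Finset.card_univ, smul_eq_mul]
    have h7 := h1.trans h4
    have e2 : 1 + 2 * g * D' ≤ (1 + 2 * g) * (D' + 1) := by nlinarith
    have e3 : 2 * nb * c1 * (1 + 2 * g) ^ y * L < (D' + 1) * (D' + 1) := Nat.lt_succ_sqrt _
    have h8 : L * (nb * (2 * h0 * (c1 * (1 + E) ^ y))) < h0 * (D' + 1) ^ g := by
      rw [hE2]
      calc L * (nb * (2 * h0 * (c1 * (1 + 2 * g * D') ^ y)))
          ≤ L * (nb * (2 * h0 * (c1 * ((1 + 2 * g) * (D' + 1)) ^ y))) := by
            gcongr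
        _ = h0 * ((2 * nb * c1 * (1 + 2 * g) ^ y * L) * (D' + 1) ^ y) := by
            rw [mul_pow]; ring
        _ < h0 * (((D' + 1) * (D' + 1)) * (D' + 1) ^ y) := by
            refine Nat.mul_lt_mul_of_pos_left ?_ hT2
            exact Nat.mul_lt_mul_of_pos_right e3 (Nat.pow_pos (Nat.succ_pos _))
        _ = h0 * (D' + 1) ^ g := by rw [hy, pow_add]; ring
    exact absurd h7 (not_le.2 h8)
  rw [Fintype.not_linearIndependent_iff] at hdep
  obtain ⟨z, hz1, x0, hz2⟩ := hdep
  set G : MvPolynomial (Gr L β × Fin n) K := ∑ x, z x • H x with hG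
  have hGMH : MH (Sum.elim (fun _ => T) r0) G := by
    rw [hG, ← mem_mh]
    exact Submodule.sum_mem _ (fun x _ => Submodule.smul_mem _ _ (mem_mh.2 (hH x)))
  refine ⟨g * D', T, r0, G, ?_, ?_, hGMH, ?_, ?_⟩
  · have e1 : D' * D' ≤ 2 * nb * c1 * (1 + 2 * g) ^ y * L := Nat.sqrt_le _
    calc (g * D') ^ 2 = g ^ 2 * (D' * D') := by ring
      _ ≤ g ^ 2 * (2 * nb * c1 * (1 + 2 * g) ^ y * L) := Nat.mul_le_mul_left _ e1
      _ ≤ g ^ 2 * (2 * nb * c1 * (1 + 2 * g) ^ y) * (L + 1) := by
          rw [← mul_assoc]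
          exact Nat.mul_le_mul_left _ (Nat.le_succ L)
  · intro b
    exact Nat.mul_le_mul_right _ (hdimg b)
  · -- nonvanishing
    let x : Box → Ω := fun e => ∑ a, z (a, e) • ev (ψ a) u
    have hx : x x0.2 ≠ 0 := by
      intro h
      have h1 := Fintype.linearIndependent_iff.1 hψ2 (fun a => z (a, x0.2)) h x0.1
      exact hz2 h1
    obtain ⟨F', iF, iA, f, v, hv, hne⟩ := nonvan CI hind D' x x0.2 hx
    refine ⟨F', iF, iA, Sum.elim (fun p c => f (u p c)) v, ?_, ?_⟩
    · rintro (p | b)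
      · exact (hu p).map f
      · exact hv b
    · have h1 : ev G (Sum.elim (fun p c => f (u p c)) v) =
          ∑ e, f (x e) * ev (mb K CI D' e) v := by
        have h2 : ev G (Sum.elim (fun p c => f (u p c)) v) =
            ∑ y : Fin h0 × Box, z y • ev (H y) (Sum.elim (fun p c => f (u p c)) v) := by
          rw [hG]
          simp only [ev, map_sum, map_smul]
        have h3 : ∀ y : Fin h0 × Box, ev (H y) (Sum.elim (fun p c => f (u p c)) v) =
            f (ev (ψ y.1) u) * ev (mb K CI D' y.2) v := by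
          intro y
          have h4 : ev (H y) (Sum.elim (fun p c => f (u p c)) v) =
              ev (Dns.pull (Sum.inl : (Fin L × Fin β) → Gr L β) (ψ y.1))
                (Sum.elim (fun p c => f (u p c)) v) *
              ev (Dns.pull (Sum.inr : Fin β → Gr L β) (mb K CI D' y.2))
                (Sum.elim (fun p c => f (u p c)) v) := by
            simp only [H, ev, map_mul]
          rw [h4, Dns.ev_pull, Dns.ev_pull]
          congr 1
          exact (MvPolynomial.comp_aeval_apply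
            (f := fun p : (Fin L × Fin β) × Fin n => u p.1 p.2) f (ψ y.1)).symm
        rw [h2, Fintype.sum_prod_type_right]
        refine Finset.sum_congr rfl (fun e _ => ?_)
        simp only [h3, x, map_sum, map_smul, Finset.sum_mul]
        refine Finset.sum_congr rfl (fun a _ => ?_)
        rw [smul_mul_assoc]
      rw [h1]
      exact hne
  · intro j c0
    have hR := MH_cmpCc A j c0 hGMH
    refine ⟨_, φ j, fun k => gam u (ρ j k) (cmp G (Cc A j c0)), hφ1 j,
      fun k => MH_gam u _ hR, fun k i => ?_, ?_⟩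
    · rw [← lr_apply]
      have h1 := congrFun hz1 (⟨(j, c0, i), k⟩ : Ix)
      have h2 : ((∑ x, z x • μ x) (⟨(j, c0, i), k⟩ : Ix) : V i).val =
          ∑ x, z x • lr u (ρ j k) (vc (P i)) (cmp (H x) (Cc A j c0)) := by
        rw [Finset.sum_apply, Submodule.coe_sum]
        rfl
      rw [h1] at h2
      have h3 : cmp G (Cc A j c0) = ∑ x, z x • cmp (H x) (Cc A j c0) := by
        rw [hG]
        simp only [Pool.Agent.TH954.X.cmp, map_sum, map_smul]
      rw [h3, map_sum]
      simp only [map_smul]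
      rw [← h2]
      rfl
    · intro E' _ _ Q y hQ
      exact expand CJ u hgen hR (φ j) (hφ1 j) (ρ j) (hφ3 j) Q hQ y

end aux

end Pool.Agent.J4H27.AB
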