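import Pool.Agent.J4H27.AB.Pick
import Pool.Agent.TH954.Z.Gp
import Pool.Agent.TH954.Z.Main1
import Pool.Agent.TH954.Y.Comb

/-!
# Clusters of exceptional points lie on hypersurfaces of bounded degree
-/

set_option autoImplicit false
set_option linter.unusedSectionVars false

open MvPolynomial Pool.Agent.TH954.X Pool.Agent.TH954.V Pool.Agent.TH954.Z
  Pool.Agent.TH954.Y NumberField

namespace Pool.Agent.J4H27.AB

section forms

variable {K : Type} [Field K] {n β : ℕ}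

/-- the set `E` is contained in a hypersurface of multidegree at most `d` -/
def InHyp (A : Fin β → AbV K n) (d : ℕ) (E : Set (Bp A K)) : Prop :=
  ∃ (Φ : MvPolynomial (Fin β × Fin n) K) (τ : Fin β → ℕ), (∀ b, τ b ≤ d) ∧ MH τ Φ ∧ NZ A Φ ∧
    ∀ P ∈ E, ev Φ (vc P) = 0

lemma InHyp.mono {A : Fin β → AbV K n} {d d' : ℕ} {E : Set (Bp A K)} (h : InHyp A d E)
    (hd : d ≤ d') : InHyp A d' E := by
  obtain ⟨Φ, τ, h1, h2, h3, h4⟩ := h
  exact ⟨Φ, τ, fun b => (h1 b).trans hd, h2, h3, h4⟩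

lemma InHyp.sub {A : Fin β → AbV K n} {d : ℕ} {E E' : Set (Bp A K)} (h : InHyp A d E)
    (hE : E' ⊆ E) : InHyp A d E' := by
  obtain ⟨Φ, τ, h1, h2, h3, h4⟩ := h
  exact ⟨Φ, τ, h1, h2, h3, fun P hP => h4 P (hE hP)⟩

lemma gnr_of {A : Fin β → AbV K n} {d : ℕ} {E : Set (Bp A K)} (h : ¬ InHyp A d E)
    (τ : Fin β → ℕ) (hτ : ∀ b, τ b ≤ d) : Gnr A E τ :=
  fun Φ h1 h2 h3 => h ⟨Φ, τ, hτ, h1, h3, h2⟩

lemma Bl_irr (A : Fin β → AbV K n) (L : ℕ) (l : Gr L β) : (Bl A L l).Irr := by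
  rcases l with p | b
  · intro F _ _ g h a b' hg hh h1 h2
    exact (A p.2).irr F g h a b' hg hh h1 h2
  · intro F _ _ g h a b' hg hh h1 h2
    exact (A b).irr F g h a b' hg hh h1 h2

lemma Bl_one (A : Fin β → AbV K n) (L : ℕ) : Gen.N (Bl A L) 1 := by
  refine (Gen.N_z0 (Bl A L) (fun i => ?_)).2
  rcases i with p | b
  · intro F _ _ g a hg h0
    exact (A p.2).ind F g a hg h0
  · intro F _ _ g a hg h0
    exact (A b).ind F g a hg h0

/-- the form `Φ` in the points `Q (e j)` -/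
noncomputable def pe {d L : ℕ} (e : Fin d ↪ Fin L) (Φ : MvPolynomial ((Fin d × Fin β) × Fin n) K) :
    MvPolynomial (Gr L β × Fin n) K :=
  Dns.pull (fun p : Fin d × Fin β => (Sum.inl (e p.1, p.2) : Gr L β)) Φ

lemma ev_pe {A : Fin β → AbV K n} {d L : ℕ} (e : Fin d ↪ Fin L)
    (Φ : MvPolynomial ((Fin d × Fin β) × Fin n) K)
    {F : Type} [Field F] [Algebra K F] (Q : Fin L → Bp A F) (P : Bp A F) :
    ev (pe e Φ) (vcS Q P) = ev Φ (vcT (fun j => Q (e j))) := by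
  unfold pe
  rw [Dns.ev_pull]
  rfl

lemma N_pe {A : Fin β → AbV K n} {d L : ℕ} (e : Fin d ↪ Fin L)
    (Φ : MvPolynomial ((Fin d × Fin β) × Fin n) K) (h : NZT A d Φ) :
    Gen.N (Bl A L) (pe e Φ) := by
  classical
  obtain ⟨F, iF, iA, Q, hQ⟩ := h
  let Q' : Fin L → Bp A F := fun l => if h : ∃ j, e j = l then Q h.choose else 0
  have hQ' : ∀ j, Q' (e j) = Q j := by
    intro j
    have h : ∃ j', e j' = e j := ⟨j, rfl⟩
    simp only [Q']
    rw [dif_pos h]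
    congr 1
    exact e.injective h.choose_spec
  refine ⟨F, iF, iA, vcS Q' (0 : Bp A F), ?_, ?_⟩
  · rintro (p | b)
    · exact ⟨Q' p.1 p.2, rfl⟩
    · exact ⟨(0 : Bp A F) b, rfl⟩
  · rw [ev_pe]
    have h1 : (fun j => Q' (e j)) = Q := funext hQ'
    rw [h1]
    exact hQ

end forms

section hts

variable {K : Type} [Field K] [NumberField K] {ι : Type} [Fintype ι] {n : ℕ}

lemma tot_lam0_le (τ : ι → ℕ) (Φ : MvPolynomial (ι × Fin n) K) (hΦ : MH τ Φ) :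
    ∃ C : ℝ, 0 ≤ C ∧ ∀ u : ι → Fin n → K, (∀ j, u j ≠ 0) → ev Φ u ≠ 0 →
      tot (lam0 (fun _ : Unit => τ) (fun _ => Φ) u) ≤
        ∑ j, (τ j : ℝ) * Height.logHeight (u j) + C := by
  obtain ⟨Ag, Mg, hMg, hAg⟩ := nvW_le_kap Φ τ hΦ
  obtain ⟨ckg, hckg0, hckg⟩ := tot_kap Ag hMg 1
  refine ⟨ckg * Module.finrank ℚ K, by positivity, fun u hu h0 => ?_⟩
  have hF := FS_lognv τ Φ hu h0
  have hF0 : FS (lam0 (fun _ : Unit => τ) (fun _ => Φ) u) :=
    FS_lam0 _ _ (fun _ => hΦ) hu ⟨(), h0⟩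
  have h1 : ∀ w : AbsoluteValue K ℝ, lam0 (fun _ : Unit => τ) (fun _ => Φ) u w ≤
      (-1 : ℝ) * Real.log (nvW w τ Φ u) + Real.log (kap Ag Mg 1 w) := by
    intro w
    have h2 : Real.log (nvW w τ Φ u) ≤ Real.log (kap Ag Mg 1 w) :=
      Real.log_le_log (nvW_pos w τ Φ hu h0) (hAg w _ hu)
    have h3 : 0 ≤ Real.log (kap Ag Mg 1 w) := Real.log_nonneg (one_le_kap Ag hMg 1 w)
    unfold lam0
    rw [ciSup_const]
    exact max_le (by linarith) (by linarith)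
  have h2 := tot_le hF0 (FS_add (FS_mul hF (-1)) (hckg K).1) (fun w => h1 _) (fun w => h1 _)
  rw [tot_add (FS_mul hF _) (hckg K).1, tot_mul hF, tot_lognv τ Φ hu h0] at h2
  have h3 := (hckg K).2
  linarith

end hts

section one

variable {K : Type} [Field K] [NumberField K] {n β : ℕ}

lemma sum_ht_le {A : Fin β → AbV K n} {d : ℕ} (τ : Fin d × Fin β → ℕ) (Q : Fin d → Bp A K)
    (B : ℝ) (hQ : ∀ j, ht (Q j) ≤ B) :
    ∑ p, (τ p : ℝ) * Height.logHeight (vcT Q p) ≤ (∑ p, (τ p : ℝ)) * B := by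
  rw [Finset.sum_mul]
  refine Finset.sum_le_sum (fun p _ => mul_le_mul_of_nonneg_left ?_ (Nat.cast_nonneg _))
  refine le_trans ?_ (hQ p.1)
  exact Finset.single_le_sum (f := fun b => Height.logHeight (vc (Q p.1) b))
    (fun _ _ => Height.logHeight_nonneg _) (Finset.mem_univ p.2)

/-- **One place.** -/
theorem cluD (A : Fin β → AbV K n) {E : Type} [Fintype E]
    (f : E → MvPolynomial (Fin β × Fin n) K) (δ : E → Fin β → ℕ) (hf : ∀ i, MH (δ i) (f i))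
    (hc : CodimB A f 1) (w : AbsoluteValue K ℝ) (hw : IsPl w) (ε : ℝ) (hε : 0 < ε) :
    ∃ (d0 : ℕ) (ρ : ℝ), 0 < ρ ∧ ∀ C0 : ℝ, ∃ T0 : ℝ, ∀ T, T0 ≤ T → ∀ S : Set (Bp A K),
      (∀ P ∈ S, ∀ Q ∈ S, ht (P - Q) ≤ ρ * T + C0) →
      (∀ P ∈ S, (⨆ i, nvW w (δ i) (f i) (vc P)) ≤ Real.exp (-(ε * T))) →
      InHyp A d0 S := by
  classical
  obtain ⟨d, Φ, τ, hτ, hΦ, N, M, e0, A0, hM, hloc⟩ := gp K n β A E f δ hf hc
  obtain ⟨σ, hσ⟩ : ∃ σ, MH σ (pe (β := β) (Function.Embedding.refl (Fin (d + 1))) Φ) :=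
    Dns.MH_pull _ hτ
  obtain ⟨d0, hd0⟩ := pick A hσ (N_pe (Function.Embedding.refl (Fin (d + 1))) Φ hΦ)
  obtain ⟨cΦ, hcΦ0, hcΦ⟩ := tot_lam0_le τ Φ hτ
  set t1 : ℝ := ∑ p, (τ p : ℝ) with ht1
  have ht10 : 0 ≤ t1 := Finset.sum_nonneg (fun _ _ => Nat.cast_nonneg _)
  have hNt : 0 < (N : ℝ) * t1 + 1 := by positivity
  refine ⟨d0, ε / (2 * (N * t1 + 1)), by positivity, fun C0 => ?_⟩
  refine ⟨max 0 (2 * (N * (t1 * |C0| + cΦ) + |Real.log (kap A0 M e0 w)| + 1) / ε),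
    fun T hT S hS1 hS2 => ?_⟩
  by_contra hcon
  obtain ⟨R, hR, hne⟩ := hd0 S (fun τ hτ => gnr_of hcon τ hτ)
  have hT0 : 0 ≤ T := (le_max_left _ _).trans hT
  have hT1 := (le_max_right _ _).trans hT
  rw [div_le_iff₀ hε] at hT1
  rw [ev_pe] at hne
  set Q : Fin (d + 1) → Bp A K := fun j => df R ((Function.Embedding.refl (Fin (d + 1))) j)
    with hQ
  have hQR : ∀ j, R 0 + Q j = R j.succ := by
    intro j
    change R 0 + (R j.succ - R 0) = _
    rw [add_sub_cancel]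
  have hQh : ∀ j, ht (Q j) ≤ ε / (2 * (N * t1 + 1)) * T + |C0| := by
    intro j
    have h1 := hS1 _ (hR j.succ) _ (hR 0)
    have h2 := le_abs_self C0
    change ht (R j.succ - R 0) ≤ _
    linarith
  have h1 := hloc w (R 0) Q
  have h2 : (⨆ p : Fin (d + 1) × E, nvW w (δ p.2) (f p.2) (vc (R 0 + Q p.1))) ≤
      Real.exp (-(ε * T)) := by
    rcases isEmpty_or_nonempty (Fin (d + 1) × E) with he | he
    · rw [Real.iSup_of_isEmpty]
      exact (Real.exp_pos _).le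
    · refine ciSup_le (fun p => ?_)
      rw [hQR]
      refine le_trans ?_ (hS2 _ (hR p.1.succ))
      exact le_ciSup (f := fun i => nvW w (δ i) (f i) (vc (R p.1.succ)))
        (Set.finite_range _).bddAbove p.2
  have hk1 : 1 ≤ kap A0 M e0 w := one_le_kap A0 hM e0 w
  have h3 := h1.trans (mul_le_mul_of_nonneg_left h2 (zero_le_one.trans hk1))
  have h4 : 0 < nvW w τ Φ (vcT Q) := nvW_pos w τ Φ (fun p => vcT_ne_zero _ p) hne
  have h5 := Real.log_le_log (pow_pos h4 N) h3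
  rw [Real.log_pow, Real.log_mul (zero_lt_one.trans_le hk1).ne' (Real.exp_pos _).ne',
    Real.log_exp] at h5
  have hz : FS (lam0 (fun _ : Unit => τ) (fun _ => Φ) (vcT Q)) :=
    FS_lam0 _ _ (fun _ => hτ) (fun p => vcT_ne_zero _ p) ⟨(), hne⟩
  have h6 : -Real.log (nvW w τ Φ (vcT Q)) ≤ lam0 (fun _ : Unit => τ) (fun _ => Φ) (vcT Q) w := by
    have h7 : (⨆ _ : Unit, nvW w τ Φ (vcT Q)) = nvW w τ Φ (vcT Q) := ciSup_const
    have h8 : lam0 (fun _ : Unit => τ) (fun _ => Φ) (vcT Q) w =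
      max 0 (-Real.log (⨆ _ : Unit, nvW w τ Φ (vcT Q))) := rfl
    rw [h8, h7]
    exact le_max_right _ _
  have h7 := le_tot hz (fun w => lam0_nonneg _ _ _ w) hw
  have h8 := hcΦ (vcT Q) (fun p => vcT_ne_zero _ p) hne
  have h9 := sum_ht_le τ Q _ hQh
  rw [← ht1] at h9
  have h10 : -Real.log (nvW w τ Φ (vcT Q)) ≤
      t1 * (ε / (2 * (N * t1 + 1)) * T + |C0|) + cΦ := by linarith
  have h11 := mul_le_mul_of_nonneg_left h10 (Nat.cast_nonneg (α := ℝ) N)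
  have h12 : (N : ℝ) * (t1 * (ε / (2 * (N * t1 + 1)) * T)) ≤ ε / 2 * T := by
    have h13 : (N : ℝ) * t1 * (ε / (2 * (N * t1 + 1))) ≤ ε / 2 := by
      rw [mul_div_assoc', div_le_div_iff₀ (by positivity) (by norm_num)]
      nlinarith
    nlinarith
  have h14 := le_abs_self (Real.log (kap A0 M e0 w))
  nlinarith

end one

section allp

variable {K : Type} [Field K] [NumberField K] {n β : ℕ}

/-- **All places.** -/
theorem cluW (A : Fin β → AbV K n) {E : Type} [Fintype E]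
    (f : E → MvPolynomial (Fin β × Fin n) K) (δ : E → Fin β → ℕ) (hf : ∀ i, MH (δ i) (f i))
    (hc : CodimB A f 2) (ε : ℝ) (hε : 0 < ε) :
    ∃ (d0 : ℕ) (ρ : ℝ), 0 < ρ ∧ ∀ C0 : ℝ, ∃ T0 : ℝ, ∀ T, T0 ≤ T → ∀ S : Set (Bp A K),
      (∀ P ∈ S, ht P ≤ T) →
      (∀ P ∈ S, ∀ Q ∈ S, ht (P - Q) ≤ ρ * T + C0) →
      (∀ P ∈ S, (∀ i, ev (f i) (vc P) = 0) ∨ ε * T < tot (lam0 δ f (vc P))) →
      InHyp A d0 S := by
  classical
  obtain ⟨d, Φ, τ, hτ, hΦ, N, M, e0, A0, hM, hloc⟩ := gp K n β A E f δ hf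
    (hc.mono (by norm_num))
  obtain ⟨C, N1, hN1, hhyp⟩ := hypG K n β A E f δ hf hc
  obtain ⟨L, hL0, hL⟩ := exists_L d N1 C 1 ε 1 zero_le_one hε one_pos
  have hLR : (0 : ℝ) < L := by exact_mod_cast hL0
  obtain ⟨D, T', r0, G, hDC, hr0D, hG, hGN, M1, e1, A1, hM1, hGl⟩ := hhyp L
  have hLD : 4 * (d * N1 * D : ℝ) ≤ ε * L := by
    have h1 := hL D hDC
    rw [mul_one, one_mul, div_le_iff₀ hε] at h1
    nlinarith
  -- the combined form
  obtain ⟨⟨σ1, hσ1⟩, hNe⟩ := Gen.N_prod (Bl A L) (Bl_irr A L) (Bl_one A L) Finset.univ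
    (fun e : Fin (d + 1) ↪ Fin L => pe (β := β) e Φ) (fun e _ => Dns.MH_pull _ hτ)
    (fun e _ => N_pe e Φ hΦ)
  obtain ⟨d0, hd0⟩ := pick A (MH_mul hG hσ1) (Gen.N_mul (Bl A L) (Bl_irr A L) hG hσ1 hGN hNe)
  obtain ⟨Ag, Mg, hMg, hAg⟩ := nvW_le_kap G _ hG
  obtain ⟨ck, hck0, hck⟩ := tot_kap A0 hM e0
  obtain ⟨ck1, hck10, hck1⟩ := tot_kap A1 hM1 e1
  obtain ⟨ckg, hckg0, hckg⟩ := tot_kap Ag hMg 1
  obtain ⟨cΦ, hcΦ0, hcΦ⟩ := tot_lam0_le τ Φ hτ
  set dK : ℝ := (Module.finrank ℚ K : ℝ) with hdK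
  have hdK0 : 0 ≤ dK := Nat.cast_nonneg _
  set t1 : ℝ := ∑ p, (τ p : ℝ) with ht1
  have ht10 : 0 ≤ t1 := Finset.sum_nonneg (fun _ _ => Nat.cast_nonneg _)
  set ne : ℝ := (Fintype.card (Fin (d + 1) ↪ Fin L) : ℝ) with hne
  have hne0 : 0 ≤ ne := Nat.cast_nonneg _
  -- coefficient of the height of the differences
  set B1 : ℝ := d * (N1 * (T' * (L * β))) + ne * (N * t1) with hB1
  have hB10 : 0 ≤ B1 := by positivity
  set ρ : ℝ := ε * L / (4 * (B1 + 1)) with hρ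
  have hρ0 : 0 < ρ := by positivity
  refine ⟨d0, ρ, hρ0, fun C0 => ?_⟩
  set C2 : ℝ := B1 * |C0| + d * (N1 * (ckg * dK) + ck1 * dK) + ne * (N * cΦ + ck * dK) with hC2
  have hC20 : 0 ≤ C2 := by positivity
  refine ⟨4 * (C2 + 1) / (ε * L), fun T hT S hS0 hS1 hS2 => ?_⟩
  by_contra hcon
  obtain ⟨R, hR, hneR⟩ := hd0 S (fun τ hτ => gnr_of hcon τ hτ)
  have hεL : 0 < ε * L := by positivity
  rw [div_le_iff₀ hεL] at hT
  have hTpos : 0 < T := by
    by_contra h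
    push Not at h
    nlinarith
  set P : Bp A K := R 0 with hP
  set Q : Fin L → Bp A K := df R with hQ
  have hQR : ∀ j, P + Q j = R j.succ := by
    intro j
    change R 0 + (R j.succ - R 0) = _
    rw [add_sub_cancel]
  have hQh : ∀ j, ht (Q j) ≤ ρ * T + |C0| := by
    intro j
    have h1 := hS1 _ (hR j.succ) _ (hR 0)
    have h2 := le_abs_self C0
    change ht (R j.succ - R 0) ≤ _
    linarith
  have hH0 : 0 ≤ ρ * T + |C0| := by positivity
  -- nonvanishing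
  have hev : ev G (vcS Q P) ≠ 0 ∧ ∀ e : Fin (d + 1) ↪ Fin L,
      ev Φ (vcT (fun j => Q (e j))) ≠ 0 := by
    have h1 : ev (G * ∏ e : Fin (d + 1) ↪ Fin L, pe (β := β) e Φ) (vcS Q P) =
        ev G (vcS Q P) * ∏ e : Fin (d + 1) ↪ Fin L, ev (pe (β := β) e Φ) (vcS Q P) := by
      simp only [ev, map_mul, map_prod]
    rw [h1] at hneR
    refine ⟨left_ne_zero_of_mul hneR, fun e => ?_⟩
    have h2 := Finset.prod_ne_zero_iff.1 (right_ne_zero_of_mul hneR) e (Finset.mem_univ e)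
    rwa [ev_pe] at h2
  obtain ⟨hgu, hqΦ⟩ := hev
  have hu0 : ∀ l, vcS Q P l ≠ 0 := fun l => vcS_ne A Q P l
  have w1 : AbsoluteValue K ℝ := ai (Classical.arbitrary (InfinitePlace K))
  have hUpos : ∀ w i, 0 < ⨆ j, nvW w (δ j) (f j) (vc (P + Q i)) := by
    intro w i
    have h1 := hGl w P Q i
    have h2 : 0 < nvW w (Sum.elim (fun _ => T') r0) G (vcS Q P) ^ N1 :=
      pow_pos (nvW_pos w _ G hu0 hgu) _
    have h3 : 0 < kap A1 M1 e1 w := zero_lt_one.trans_le (one_le_kap A1 hM1 e1 w)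
    by_contra hcon
    have h4 := mul_nonpos_of_nonneg_of_nonpos h3.le (not_lt.mp hcon)
    linarith
  have hfne : ∀ i, ∃ j, ev (f j) (vc (P + Q i)) ≠ 0 := fun i =>
    exists_of_sup_pos w1 δ f (hUpos w1 i)
  set x : Fin L → AbsoluteValue K ℝ → ℝ := fun i => lam0 δ f (vc (P + Q i)) with hx
  have hxF : ∀ i, FS (x i) := fun i => FS_lam0 δ f hf (fun b => vc_ne_zero _ b) (hfne i)
  have hx0 : ∀ i w, 0 ≤ x i w := fun i w => lam0_nonneg _ _ _ w
  -- the function `Gf`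
  set Gf : AbsoluteValue K ℝ → ℝ := fun w =>
    (N1 : ℝ) * ((-1 : ℝ) * Real.log (nvW w (Sum.elim (fun _ => T') r0) G (vcS Q P)) +
      Real.log (kap Ag Mg 1 w)) + Real.log (kap A1 M1 e1 w) with hGf
  have hg1 := FS_lognv (Sum.elim (fun _ => T') r0) G hu0 hgu
  have hGF1 : FS (fun w => (-1 : ℝ) * Real.log (nvW w (Sum.elim (fun _ => T') r0) G (vcS Q P)) +
      Real.log (kap Ag Mg 1 w)) := FS_add (FS_mul hg1 _) (hckg K).1
  have hGF : FS Gf := FS_add (FS_mul hGF1 _) (hck1 K).1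
  have hhsum : ∑ l, ((Sum.elim (fun _ => T') r0 : Gr L β → ℕ) l : ℝ) *
      Height.logHeight (vcS Q P l) ≤ T' * (L * β) * (ρ * T + |C0|) + D * T := by
    rw [Fintype.sum_sum_type]
    simp only [Sum.elim_inl, Sum.elim_inr]
    refine add_le_add ?_ ?_
    · have h1 : ∀ p : Fin L × Fin β, (T' : ℝ) * Height.logHeight (vcS Q P (Sum.inl p)) ≤
          T' * (ρ * T + |C0|) := by
        intro p
        refine mul_le_mul_of_nonneg_left ?_ (Nat.cast_nonneg _)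
        refine le_trans ?_ (hQh p.1)
        exact Finset.single_le_sum (f := fun b => Height.logHeight (vc (Q p.1) b))
          (fun _ _ => Height.logHeight_nonneg _) (Finset.mem_univ p.2)
      refine (Finset.sum_le_sum (fun p _ => h1 p)).trans (le_of_eq ?_)
      rw [Finset.sum_const, Finset.card_univ, Fintype.card_prod, Fintype.card_fin,
        Fintype.card_fin, nsmul_eq_mul]
      push_cast
      ring
    · calc ∑ b, (r0 b : ℝ) * Height.logHeight (vcS Q P (Sum.inr b)) ≤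
            ∑ b, (D : ℝ) * Height.logHeight (vc P b) :=
            Finset.sum_le_sum (fun b _ => mul_le_mul_of_nonneg_right
              (by exact_mod_cast hr0D b) (Height.logHeight_nonneg _))
        _ = D * ht P := by rw [← Finset.mul_sum]; rfl
        _ ≤ _ := mul_le_mul_of_nonneg_left (hS0 _ (hR 0)) (Nat.cast_nonneg _)
  have hGT : tot Gf ≤ N1 * (T' * (L * β) * (ρ * T + |C0|) + D * T) +
      (N1 * (ckg * dK) + ck1 * dK) := by
    rw [hGf, tot_add (FS_mul hGF1 _) (hck1 K).1, tot_mul hGF1,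
      tot_add (FS_mul hg1 _) (hckg K).1, tot_mul hg1,
      tot_lognv (Sum.elim (fun _ => T') r0) G hu0 hgu]
    have h1 := (hck1 K).2
    have h2 := (hckg K).2
    have h4 : (N1 : ℝ) * (-1 * -∑ l, ((Sum.elim (fun _ => T') r0 : Gr L β → ℕ) l : ℝ) *
        Height.logHeight (vcS Q P l) +
        tot (fun w : AbsoluteValue K ℝ => Real.log (kap Ag Mg 1 w))) ≤
        N1 * ((T' * (L * β) * (ρ * T + |C0|) + D * T) + ckg * dK) := by
      refine mul_le_mul_of_nonneg_left ?_ (Nat.cast_nonneg _)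
      linarith
    linarith
  have hG0 : ∀ w, 0 ≤ Gf w := by
    intro w
    have h1 : Real.log (nvW w (Sum.elim (fun _ => T') r0) G (vcS Q P)) ≤
        Real.log (kap Ag Mg 1 w) :=
      Real.log_le_log (nvW_pos w _ G hu0 hgu) (hAg w _ hu0)
    have h2 : 0 ≤ Real.log (kap A1 M1 e1 w) := Real.log_nonneg (one_le_kap A1 hM1 e1 w)
    have h3 : 0 ≤ (N1 : ℝ) *
        ((-1 : ℝ) * Real.log (nvW w (Sum.elim (fun _ => T') r0) G (vcS Q P)) +
        Real.log (kap Ag Mg 1 w)) := mul_nonneg (Nat.cast_nonneg _) (by linarith)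
    change 0 ≤ (N1 : ℝ) *
      ((-1 : ℝ) * Real.log (nvW w (Sum.elim (fun _ => T') r0) G (vcS Q P)) +
      Real.log (kap Ag Mg 1 w)) + Real.log (kap A1 M1 e1 w)
    linarith
  have hxG : ∀ i w, x i w ≤ Gf w := by
    intro i w
    refine max_le (hG0 w) ?_
    have h1 := Real.log_le_log (pow_pos (nvW_pos w _ G hu0 hgu) _) (hGl w P Q i)
    rw [Real.log_pow, Real.log_mul (zero_lt_one.trans_le (one_le_kap A1 hM1 e1 w)).ne'
      (hUpos w i).ne'] at h1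
    have h2 : 0 ≤ (N1 : ℝ) * Real.log (kap Ag Mg 1 w) :=
      mul_nonneg (Nat.cast_nonneg _) (Real.log_nonneg (one_le_kap Ag hMg 1 w))
    change _ ≤ (N1 : ℝ) *
      ((-1 : ℝ) * Real.log (nvW w (Sum.elim (fun _ => T') r0) G (vcS Q P)) +
      Real.log (kap Ag Mg 1 w)) + Real.log (kap A1 M1 e1 w)
    linarith
  -- the tuples
  set z : (Fin (d + 1) ↪ Fin L) → AbsoluteValue K ℝ → ℝ := fun e =>
    lam0 (fun _ : Unit => τ) (fun _ => Φ) (vcT (fun j => Q (e j))) with hz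
  have hzF : ∀ e, FS (z e) := fun e =>
    FS_lam0 _ _ (fun _ => hτ) (fun p => vcT_ne_zero _ p) ⟨(), hqΦ e⟩
  have hzT : ∀ e, tot (z e) ≤ t1 * (ρ * T + |C0|) + cΦ := by
    intro e
    have h8 := hcΦ (vcT (fun j => Q (e j))) (fun p => vcT_ne_zero _ p) (hqΦ e)
    have h9 := sum_ht_le τ (fun j => Q (e j)) _ (fun j => hQh (e j))
    rw [← ht1] at h9
    exact h8.trans (by linarith)
  have htup : ∀ (e : Fin (d + 1) ↪ Fin L) (w : AbsoluteValue K ℝ),
      (⨅ j, x (e j) w) ≤ (N : ℝ) * z e w + Real.log (kap A0 M e0 w) := by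
    intro e w
    have hk1 : 1 ≤ kap A0 M e0 w := one_le_kap A0 hM e0 w
    have h1 := hloc w P (fun j => Q (e j))
    obtain ⟨jE, -⟩ := hfne (e 0)
    have hne2 : Nonempty (Fin (d + 1) × E) := ⟨(0, jE)⟩
    obtain ⟨p0, hp0⟩ := Finite.exists_max
      (fun p : Fin (d + 1) × E => nvW w (δ p.2) (f p.2) (vc (P + Q (e p.1))))
    set Rr : ℝ := ⨆ i, nvW w (δ i) (f i) (vc (P + Q (e p0.1))) with hRr
    have h2 : (⨆ p : Fin (d + 1) × E, nvW w (δ p.2) (f p.2) (vc (P + Q (e p.1)))) ≤ Rr := by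
      refine ciSup_le (fun p => (hp0 p).trans ?_)
      exact le_ciSup (f := fun i => nvW w (δ i) (f i) (vc (P + Q (e p0.1))))
        (Set.finite_range _).bddAbove p0.2
    have hR0 : 0 < Rr := hUpos w (e p0.1)
    have h3 := h1.trans (mul_le_mul_of_nonneg_left h2 (zero_le_one.trans hk1))
    have h4 : 0 < nvW w τ Φ (vcT (fun j => Q (e j))) :=
      nvW_pos w τ Φ (fun p => vcT_ne_zero _ p) (hqΦ e)
    have h5 := Real.log_le_log (pow_pos h4 N) h3
    rw [Real.log_pow, Real.log_mul (zero_lt_one.trans_le hk1).ne' hR0.ne'] at h5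
    have h6 : -Real.log (nvW w τ Φ (vcT (fun j => Q (e j)))) ≤ z e w := by
      have h7 : (⨆ _ : Unit, nvW w τ Φ (vcT (fun j => Q (e j)))) =
          nvW w τ Φ (vcT (fun j => Q (e j))) := ciSup_const
      have h8 : z e w = max 0 (-Real.log (⨆ _ : Unit, nvW w τ Φ (vcT (fun j => Q (e j))))) := rfl
      rw [h8, h7]
      exact le_max_right _ _
    have h7 := mul_le_mul_of_nonneg_left h6 (Nat.cast_nonneg (α := ℝ) N)
    have h9 : 0 ≤ (N : ℝ) * z e w + Real.log (kap A0 M e0 w) := by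
      have h10 := Real.log_nonneg hk1
      have h11 : 0 ≤ (N : ℝ) * z e w := mul_nonneg (Nat.cast_nonneg _) (lam0_nonneg _ _ _ w)
      linarith
    refine (ciInf_le (f := fun i => x (e i) w) (Set.finite_range _).bddBelow p0.1).trans ?_
    refine max_le h9 ?_
    change -Real.log Rr ≤ _
    linarith
  have hFe : ∀ e : Fin (d + 1) ↪ Fin L, FS (fun w => (N : ℝ) * z e w + Real.log (kap A0 M e0 w)) ∧
      tot (fun w => (N : ℝ) * z e w + Real.log (kap A0 M e0 w)) ≤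
        N * (t1 * (ρ * T + |C0|) + cΦ) + ck * dK := by
    intro e
    refine ⟨FS_add (FS_mul (hzF e) _) (hck K).1, ?_⟩
    rw [tot_add (FS_mul (hzF e) _) (hck K).1, tot_mul (hzF e)]
    exact add_le_add (mul_le_mul_of_nonneg_left (hzT e) (Nat.cast_nonneg _)) (hck K).2
  have hsum : ∀ w, ∑ i, x i w ≤ (d : ℝ) * Gf w + ∑ e : Fin (d + 1) ↪ Fin L,
      ((N : ℝ) * z e w + Real.log (kap A0 M e0 w)) := by
    intro w
    refine (comb L d (fun i => x i w) (Gf w) (hG0 w) (fun i => hx0 i w)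
      (fun i => hxG i w)).trans ?_
    exact add_le_add le_rfl (Finset.sum_le_sum (fun e _ => htup e w))
  have htot := tot_le (FS_sum Finset.univ (fun i _ => hxF i))
    (FS_add (FS_mul hGF _) (FS_sum Finset.univ (fun e _ => (hFe e).1)))
    (fun w => hsum (ai w)) (fun w => hsum (av w))
  rw [tot_sum _ (fun i _ => hxF i), tot_add (FS_mul hGF _)
    (FS_sum Finset.univ (fun e _ => (hFe e).1)), tot_mul hGF,
    tot_sum _ (fun e _ => (hFe e).1)] at htot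
  -- the lower bound
  have h1 : (L : ℝ) * (ε * T) ≤ ∑ i, tot (x i) := by
    have h2 : ∀ i, ε * T ≤ tot (x i) := by
      intro i
      have h3 := hS2 _ (hR i.succ)
      rw [← hQR] at h3
      rcases h3 with h3 | h3
      · obtain ⟨j, hj⟩ := hfne i
        exact absurd (h3 j) hj
      · exact h3.le
    calc (L : ℝ) * (ε * T) = ∑ _i : Fin L, ε * T := by
          rw [Finset.sum_const, Finset.card_univ, Fintype.card_fin, nsmul_eq_mul]
      _ ≤ _ := Finset.sum_le_sum (fun i _ => h2 i)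
  have h2 : ∑ e : Fin (d + 1) ↪ Fin L, tot (fun w =>
      (N : ℝ) * z e w + Real.log (kap A0 M e0 w)) ≤
      ne * (N * (t1 * (ρ * T + |C0|) + cΦ) + ck * dK) := by
    refine (Finset.sum_le_sum (fun e _ => (hFe e).2)).trans (le_of_eq ?_)
    rw [Finset.sum_const, Finset.card_univ, nsmul_eq_mul]
  have h3 : (d : ℝ) * tot Gf ≤ d * (N1 * (T' * (L * β) * (ρ * T + |C0|) + D * T) +
      (N1 * (ckg * dK) + ck1 * dK)) :=
    mul_le_mul_of_nonneg_left hGT (Nat.cast_nonneg _)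
  have h4 : (L : ℝ) * (ε * T) ≤ B1 * (ρ * T) + C2 + d * N1 * D * T := by
    have h5 : d * (N1 * (T' * (L * β) * (ρ * T + |C0|) + D * T) +
      (N1 * (ckg * dK) + ck1 * dK)) + ne * (N * (t1 * (ρ * T + |C0|) + cΦ) + ck * dK) =
      B1 * (ρ * T) + C2 + d * N1 * D * T := by
      rw [hB1, hC2, hB1]
      ring
    linarith
  have h6 : B1 * ρ ≤ ε * L / 4 := by
    rw [hρ, mul_div_assoc', div_le_div_iff₀ (by positivity) (by norm_num)]
    nlinarith
  have h7 : B1 * (ρ * T) ≤ ε * L / 4 * T := by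
    rw [← mul_assoc]
    exact mul_le_mul_of_nonneg_right h6 hTpos.le
  have h8 : d * N1 * D * T ≤ ε * L / 4 * T := by
    refine mul_le_mul_of_nonneg_right ?_ hTpos.le
    linarith
  nlinarith

end allp

end Pool.Agent.J4H27.AB
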