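import Pool.Agent.J4H27.AB.Clu
import Pool.Agent.TH954.Z.Main2
import Pool.Agent.TH954.Z.Cnt
import Pool.Agent.TH954.Z.Red

/-!
# Exceptional points lie on few hypersurfaces of bounded degree
-/

set_option autoImplicit false
set_option linter.unusedSectionVars false

open MvPolynomial Pool.Agent.TH954.X Pool.Agent.TH954.V Pool.Agent.TH954.Z
  Pool.Agent.TH954.Y NumberField Height

namespace Pool.Agent.J4H27.AB

section cov

variable {K : Type} [Field K] {n β : ℕ} {A : Fin β → AbV K n}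

/-- the set `S` is contained in the union of `N` hypersurfaces of multidegree at most `d` -/
def Cov (A : Fin β → AbV K n) (N d : ℕ) (S : Set (Bp A K)) : Prop :=
  ∃ H : Fin N → Set (Bp A K), (∀ i, InHyp A d (H i)) ∧ S ⊆ ⋃ i, H i

lemma Cov.sub {N d : ℕ} {S S' : Set (Bp A K)} (h : Cov A N d S) (hS : S' ⊆ S) : Cov A N d S' := by
  obtain ⟨H, h1, h2⟩ := h
  exact ⟨H, h1, hS.trans h2⟩

lemma Cov.union {N1 N2 d1 d2 : ℕ} {S1 S2 : Set (Bp A K)} (h1 : Cov A N1 d1 S1)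
    (h2 : Cov A N2 d2 S2) : Cov A (N1 + N2) (max d1 d2) (S1 ∪ S2) := by
  obtain ⟨H1, h11, h12⟩ := h1
  obtain ⟨H2, h21, h22⟩ := h2
  refine ⟨Fin.append H1 H2, fun i => ?_, ?_⟩
  · refine Fin.addCases (fun i => ?_) (fun i => ?_) i
    · rw [Fin.append_left]
      exact (h11 i).mono (le_max_left _ _)
    · rw [Fin.append_right]
      exact (h21 i).mono (le_max_right _ _)
  · rintro P (hP | hP)
    · obtain ⟨i, hi⟩ := Set.mem_iUnion.1 (h12 hP)
      refine Set.mem_iUnion.2 ⟨Fin.castAdd N2 i, ?_⟩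
      rw [Fin.append_left]
      exact hi
    · obtain ⟨i, hi⟩ := Set.mem_iUnion.1 (h22 hP)
      refine Set.mem_iUnion.2 ⟨Fin.natAdd N1 i, ?_⟩
      rw [Fin.append_right]
      exact hi

lemma Cov.monod {N d d' : ℕ} {S : Set (Bp A K)} (h : Cov A N d S) (hd : d ≤ d') :
    Cov A N d' S := by
  obtain ⟨H, h1, h2⟩ := h
  exact ⟨H, fun i => (h1 i).mono hd, h2⟩

lemma cov_empty (A : Fin β → AbV K n) (d : ℕ) : Cov A 0 d (∅ : Set (Bp A K)) :=
  ⟨fun i => i.elim0, fun i => i.elim0, Set.empty_subset _⟩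

/-- uniform coverings, for large `T` -/
def UC (A : Fin β → AbV K n) (X : ℝ → Set (Bp A K)) : Prop :=
  ∃ (N d : ℕ) (T0 : ℝ), ∀ T, T0 ≤ T → Cov A N d (X T)

lemma UC.union {X Y : ℝ → Set (Bp A K)} (hX : UC A X) (hY : UC A Y) :
    UC A (fun T => X T ∪ Y T) := by
  obtain ⟨N1, d1, T1, h1⟩ := hX
  obtain ⟨N2, d2, T2, h2⟩ := hY
  exact ⟨N1 + N2, max d1 d2, max T1 T2, fun T hT => (h1 T ((le_max_left _ _).trans hT)).union
    (h2 T ((le_max_right _ _).trans hT))⟩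

lemma UC.biUnion {ι : Type} (s : Finset ι) {X : ι → ℝ → Set (Bp A K)}
    (hX : ∀ i, UC A (X i)) : UC A (fun T => ⋃ i ∈ s, X i T) := by
  classical
  induction s using Finset.induction_on with
  | empty =>
    refine ⟨0, 0, 0, fun T _ => ?_⟩
    have : (⋃ i ∈ (∅ : Finset ι), X i T) = ∅ := by simp
    change Cov A 0 0 (⋃ i ∈ (∅ : Finset ι), X i T)
    rw [this]
    exact cov_empty A 0
  | insert a s ha ih =>
    have h1 : (fun T => ⋃ i ∈ insert a s, X i T) = fun T => X a T ∪ ⋃ i ∈ s, X i T := by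
      funext T
      rw [Finset.set_biUnion_insert]
    rw [h1]
    exact (hX a).union ih

lemma cov_of_col {N d : ℕ} {S : Set (Bp A K)} (col : Bp A K → Fin N)
    (h : ∀ c, InHyp A d {P | P ∈ S ∧ col P = c}) : Cov A N d S :=
  ⟨fun c => {P | P ∈ S ∧ col P = c}, h, fun P hP => Set.mem_iUnion.2 ⟨col P, hP, rfl⟩⟩

/-- each point lies on a hypersurface of degree one -/
lemma single (hd : 0 < ∑ b, (A b).dim) (P : Bp A K) : InHyp A 1 {P} := by
  classical
  obtain ⟨b, hb⟩ : ∃ b, 0 < (A b).dim := by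
    by_contra h
    push Not at h
    have : ∑ b, (A b).dim = 0 := Finset.sum_eq_zero (fun b _ => Nat.le_zero.1 (h b))
    omega
  set v := (P b).1 with hv
  let a0 : Fin (A b).dim := ⟨0, hb⟩
  obtain ⟨g, hg1, hg2, hg3⟩ : ∃ g : MvPolynomial (Option (Fin (A b).dim)) K,
      g.IsHomogeneous 1 ∧ g ≠ 0 ∧
      aeval v (rename (fun o => Option.elim o (A b).z0 (A b).z) g) = 0 := by
    by_cases h0 : v (A b).z0 = 0
    · refine ⟨X none, isHomogeneous_X _ _, X_ne_zero _, ?_⟩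
      rw [rename_X, aeval_X]
      exact h0
    · refine ⟨C (v (A b).z0) * X (some a0) - C (v ((A b).z a0)) * X none, ?_, ?_, ?_⟩
      · refine IsHomogeneous.sub ?_ ?_
        · exact (isHomogeneous_X _ _).C_mul _
        · exact (isHomogeneous_X _ _).C_mul _
      · intro h
        have h1 := congrArg (eval (fun o : Option (Fin (A b).dim) =>
          if o = some a0 then (1 : K) else 0)) h
        simp only [map_sub, map_mul, eval_C, eval_X, if_true, mul_one, reduceCtorEq, if_false,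
          mul_zero, sub_zero, map_zero] at h1
        exact h0 h1
      · simp only [map_sub, map_mul, rename_X, rename_C, aeval_X, aeval_C, Option.elim]
        change v (A b).z0 * v ((A b).z a0) - v ((A b).z a0) * v (A b).z0 = 0
        ring
  obtain ⟨F', iF', iKF', iFF', itower, P', hP'⟩ := (A b).ind K g 1 hg1 hg2
  have hEq : iKF' = iFF' := by
    refine Algebra.algebra_ext _ _ (fun r => ?_)
    exact @IsScalarTower.algebraMap_apply K K F' _ _ _ _ iFF' iKF' itower r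
  subst hEq
  have hhom := hg1.rename_isHomogeneous (f := fun o => Option.elim o (A b).z0 (A b).z)
  refine ⟨rename (fun c => (b, c)) (rename (fun o => Option.elim o (A b).z0 (A b).z) g), _,
    fun j => ?_, rename_MH hhom b, ?_, ?_⟩
  · split_ifs
    · exact le_rfl
    · exact Nat.zero_le _
  · let Z : ∀ b, (A b).Pt F' := fun b => 0
    refine ⟨F', iF', iKF', Function.update Z b P', ?_⟩
    rw [ev_rename]
    have h1 : vc (Function.update Z b P') b = P'.1 := by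
      unfold vc
      rw [Function.update_self]
    rw [h1]
    exact hP'
  · intro Q hQ
    rw [Set.mem_singleton_iff] at hQ
    rw [hQ, ev_rename]
    exact hg3

lemma cov_finite (hd : 0 < ∑ b, (A b).dim) {S : Set (Bp A K)} (hS : S.Finite) :
    ∃ N, Cov A N 1 S := by
  classical
  induction S, hS using Set.Finite.induction_on with
  | empty => exact ⟨0, cov_empty A 1⟩
  | @insert a s ha hs ih =>
    obtain ⟨N, hN⟩ := ih
    have h1 : Cov A 1 1 {a} :=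
      ⟨fun _ => {a}, fun _ => single hd a, fun P hP => Set.mem_iUnion.2 ⟨0, hP⟩⟩
    refine ⟨1 + N, ?_⟩
    have h2 := h1.union hN
    rw [max_self] at h2
    exact h2

end cov

section col

variable {K : Type} [Field K] [NumberField K] {n β : ℕ}

lemma color (A : Fin β → AbV K n) (Γ : AddSubgroup (Bp A K)) (hΓ : Γ.FG) :
    ∃ C : ℝ, ∀ ρ : ℝ, 0 < ρ → ∃ N : ℕ, ∀ T : ℝ, 1 ≤ T → ∃ col : Bp A K → Fin N,
      ∀ P ∈ Γ, ∀ Q ∈ Γ, ht P ≤ T → ht Q ≤ T → col P = col Q → ht (P - Q) ≤ ρ * T + C := by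
  have hcan : ∀ b, ∃ C : ℝ, 0 ≤ C ∧ ∃ q : (A b).Pt K → ℝ, (∀ P, 0 ≤ q P) ∧
      (∀ P Q, q (P + Q) + q (P - Q) = 2 * (q P + q Q)) ∧
      (∀ P, |q P - logHeight P.1| ≤ C) := by
    intro b
    obtain ⟨C, hC, hC'⟩ := Pool.Agent.TH954.X.canA (A b).toAbR
    obtain ⟨q, hq1, hq2, hq3⟩ := hC' K
    exact ⟨C * Module.finrank ℚ K, by positivity, q, hq1, hq2, hq3⟩
  choose C hC q hq1 hq2 hq3 using hcan
  obtain ⟨r, hr, ⟨cd, c1, c2, C', hc1, hc2, hC', h1, h2⟩, -⟩ :=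
    CntAux.setup Γ hΓ (fun P => ht P) (fun P => ∑ b, q b (P b)) (∑ b, C b)
    (Finset.sum_nonneg fun b _ => hC b) (by
      intro P
      unfold ht
      rw [← Finset.sum_sub_distrib]
      exact (Finset.abs_sum_le_sum_abs _ _).trans (Finset.sum_le_sum fun b _ => hq3 b (P b)))
    (fun P => Finset.sum_nonneg fun b _ => hq1 b _) (by
      intro P Q
      rw [← Finset.sum_add_distrib, ← Finset.sum_add_distrib, Finset.mul_sum]
      exact Finset.sum_congr rfl fun b _ => hq2 b (P b) (Q b)) (by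
      intro T
      have h1 : (Set.univ.pi (fun b => {P : (A b).Pt K | logHeight P.1 ≤ T})).Finite :=
        Set.Finite.pi' (fun b => CntAux.north (A b).toAbR T) |>.subset
          (fun v hv i => hv i (Set.mem_univ i))
      refine h1.subset ?_
      intro P hP b _
      show logHeight (P b).1 ≤ T
      refine le_trans ?_ hP.2
      exact Finset.single_le_sum (f := fun b => logHeight (vc P b))
        (fun b _ => logHeight_nonneg _) (Finset.mem_univ b))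
  exact ⟨C', PackAux.cover Γ (fun P => ht P) r cd c1 c2 C' hc1 hc2 hC' h1 h2⟩

lemma uc_BadG (A : Fin β → AbV K n) (Γ : AddSubgroup (Bp A K)) (hΓ : Γ.FG)
    {E : Type} [Fintype E]
    (f : E → MvPolynomial (Fin β × Fin n) K) (δ : E → Fin β → ℕ) (hf : ∀ i, MH (δ i) (f i))
    (hc : CodimB A f 2) (ε : ℝ) (hε : 0 < ε) : UC A (BadG Γ δ f ε) := by
  obtain ⟨C, hC⟩ := color A Γ hΓ
  obtain ⟨d0, ρ, hρ, h1⟩ := cluW A f δ hf hc ε hε
  obtain ⟨N, hN⟩ := hC ρ hρ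
  obtain ⟨T0, hT0⟩ := h1 C
  refine ⟨N, d0, max 1 T0, fun T hT => ?_⟩
  obtain ⟨col, hcol⟩ := hN T ((le_max_left _ _).trans hT)
  refine cov_of_col col (fun c => ?_)
  refine hT0 T ((le_max_right _ _).trans hT) _ (fun P hP => hP.1.1.2) ?_ (fun P hP => hP.1.2)
  rintro P ⟨hP1, hP2⟩ Q ⟨hQ1, hQ2⟩
  exact hcol P hP1.1.1 Q hQ1.1.1 hP1.1.2 hQ1.1.2 (hP2.trans hQ2.symm)

lemma uc_BadA (A : Fin β → AbV K n) (Γ : AddSubgroup (Bp A K)) (hΓ : Γ.FG)
    {E : Type} [Fintype E]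
    (f : E → MvPolynomial (Fin β × Fin n) K) (δ : E → Fin β → ℕ) (hf : ∀ i, MH (δ i) (f i))
    (hc : CodimB A f 1) (w : AbsoluteValue K ℝ) (hw : IsPl w) (ε : ℝ) (hε : 0 < ε) :
    UC A (BadA Γ w δ f ε) := by
  obtain ⟨C, hC⟩ := color A Γ hΓ
  obtain ⟨d0, ρ, hρ, h1⟩ := cluD A f δ hf hc w hw ε hε
  obtain ⟨N, hN⟩ := hC ρ hρ
  obtain ⟨T0, hT0⟩ := h1 C
  refine ⟨N, d0, max 1 T0, fun T hT => ?_⟩
  obtain ⟨col, hcol⟩ := hN T ((le_max_left _ _).trans hT)
  refine cov_of_col col (fun c => ?_)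
  refine hT0 T ((le_max_right _ _).trans hT) _ ?_ (fun P hP => hP.1.2)
  rintro P ⟨hP1, hP2⟩ Q ⟨hQ1, hQ2⟩
  exact hcol P hP1.1.1 Q hQ1.1.1 hP1.1.2 hQ1.1.2 (hP2.trans hQ2.symm)

/-- **The exceptional points of height between `T` and `2 T`.** -/
theorem dyadic (A : Fin β → AbV K n) (hd : 0 < ∑ b, (A b).dim)
    (Γ : AddSubgroup (Bp A K)) (hFG : Γ.FG)
    {E1 E2 E3 : Type} [Fintype E1] [Fintype E2] [Fintype E3]
    (g : E1 → MvPolynomial (Option (Fin β) × Fin n) K) (hgh : ∀ i, ∃ γ, MH γ (g i))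
    (f2 : E2 → MvPolynomial (Option (Fin β) × Fin n) K) (δ2 : E2 → Option (Fin β) → ℕ)
    (hf2 : ∀ i, MH (δ2 i) (f2 i))
    (f3 : E3 → MvPolynomial (Option (Fin β) × Fin n) K) (δ3 : E3 → Option (Fin β) → ℕ)
    (hf3 : ∀ i, MH (δ3 i) (f3 i))
    (hc2 : ∀ (F : Type) [Field F] [Algebra K F] (t : Fin n → F) (P : Bp A F), t ≠ 0 →
      (∀ i, ev (g i) (fl t P) = 0) → (∀ i, ev (f2 i) (fl t P) = 0) →
      td (K := K) (vc P) + ((2 : ℕ) : Cardinal) ≤ ((∑ b, (A b).dim : ℕ) : Cardinal))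
    (hc3 : ∀ (F : Type) [Field F] [Algebra K F] (t : Fin n → F) (P : Bp A F), t ≠ 0 →
      (∀ i, ev (g i) (fl t P) = 0) → (∀ i, ev (f3 i) (fl t P) = 0) →
      td (K := K) (vc P) + ((1 : ℕ) : Cardinal) ≤ ((∑ b, (A b).dim : ℕ) : Cardinal))
    (S1 : Finset (InfinitePlace K)) (S2 : Finset (FinitePlace K)) (ε : ℝ) (hε : 0 < ε) :
    ∃ N d : ℕ, ∀ T : ℝ, Cov A N d {P | P ∈ ExcG Γ g f2 δ2 f3 δ3 S1 S2 ε T ∧ T / 2 ≤ ht P} := by
  classical
  obtain ⟨s2, h2, η2, hη2, hcd2, N2, M2, A2, hM2, hl2⟩ :=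
    redG K n β A E1 E2 g hgh f2 δ2 hf2 2 hc2
  obtain ⟨s3, h3, η3, hη3, hcd3, N3, M3, A3, hM3, hl3⟩ :=
    redG K n β A E1 E3 g hgh f3 δ3 hf3 1 hc3
  set v1 : InfinitePlace K := Classical.arbitrary (InfinitePlace K) with hv1
  set w1 : AbsoluteValue K ℝ := ai v1 with hw1
  obtain ⟨ε2, hε2, ε3, hε3, T1, hsc⟩ := scaleG Γ h2 η2 h3 η3 g f2 δ2 hf2 f3 δ3 hη2 hM2 hl2
    hM3 hl3 S1 S2 w1 ε hε (1 / 2) (by norm_num)
  have hU := (uc_BadG A Γ hFG h2 η2 hη2 hcd2 ε2 hε2).union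
    ((uc_BadA A Γ hFG h3 η3 hη3 hcd3 w1 (Or.inr ⟨v1, rfl⟩) ε3 hε3).union
      ((UC.biUnion S1 (fun v => uc_BadA A Γ hFG h3 η3 hη3 hcd3 (ai v) (Or.inr ⟨v, rfl⟩)
        ε3 hε3)).union
      (UC.biUnion S2 (fun v => uc_BadA A Γ hFG h3 η3 hη3 hcd3 (av v) (Or.inl ⟨v, rfl⟩)
        ε3 hε3))))
  obtain ⟨N, d, T2, hT2⟩ := hU
  obtain ⟨c1, c2, T0, hc1, hT0, hcnt⟩ := cnt K n β A Γ hFG
  set T3 : ℝ := max (max T1 1) (max T2 T0) with hT3
  have hfin : {P | P ∈ Γ ∧ ht P ≤ T3}.Finite :=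
    (hcnt T3 ((le_max_right _ _).trans (le_max_right _ _))).1
  obtain ⟨N', hN'⟩ := cov_finite hd hfin
  refine ⟨N + N', max d 1, fun T => ?_⟩
  by_cases hT : T3 ≤ T
  · have h4 := hT2 T (((le_max_left _ _).trans (le_max_right _ _)).trans hT)
    refine (h4.union hN').sub ?_
    rintro P ⟨hP1, hP2⟩
    refine Or.inl (hsc T (((le_max_left _ _).trans (le_max_left _ _)).trans hT)
      (((le_max_right _ _).trans (le_max_left _ _)).trans hT) P hP1 ?_)
    linarith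
  · push Not at hT
    have h5 : Cov A N d (∅ : Set (Bp A K)) := by
      have h6 := hT2 T2 le_rfl
      exact h6.sub (Set.empty_subset _)
    refine (h5.union hN').sub ?_
    rintro P ⟨hP1, hP2⟩
    exact Or.inr ⟨hP1.1.1, hP1.1.2.trans hT.le⟩

end col

end Pool.Agent.J4H27.AB
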