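import Pool.Agent.J4H27.AB.AuxG

/-!
# The local inequality for the auxiliary form
-/

set_option autoImplicit false
set_option linter.unusedSectionVars false

open MvPolynomial Pool.Agent.TH954.X Pool.Agent.TH954.V Pool.Agent.TH954.Z

namespace Pool.Agent.J4H27.AB

section locR

variable {K : Type} [Field K] {J I : Type} [Fintype J] [Fintype I] {n : ℕ}

lemma locR {E' : Type} [Fintype E'] (wq : E' → MvPolynomial (I × Fin n) K)
    (hw : ∀ i, ∃ δ, MH δ (wq i)) {s : ℕ} (f : Fin s → MvPolynomial (I × Fin n) K)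
    (δ : Fin s → I → ℕ) (hf : ∀ i, MH (δ i) (f i)) {N : ℕ} (hN : 0 < N) {h : ℕ}
    {sJ : J → ℕ} {rI : I → ℕ} (φ : Fin h → MvPolynomial (J × Fin n) K)
    (γ : Fin h → MvPolynomial (I × Fin n) K) (hφ : ∀ k, MH sJ (φ k)) (hγ : ∀ k, MH rI (γ k))
    (hspan : ∀ k (c : I → Fin n),
      (γ k * ∏ j, X (j, c j)) ^ N ∈ Ideal.span (Set.range f ∪ Set.range wq))
    {R : MvPolynomial ((J ⊕ I) × Fin n) K} (hR : MH (Sum.elim sJ rI) R) :
    ∃ (A : Finset K) (M e : ℕ), 1 ≤ M ∧ ∀ (w : AbsoluteValue K ℝ) (Q : J → Fin n → K)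
      (y : I → Fin n → K), (∀ j, Q j ≠ 0) → OnS wq y →
      ev R (Sum.elim Q y) = ∑ k, ev (φ k) Q * ev (γ k) y →
      nvW w (Sum.elim sJ rI) R (Sum.elim Q y) ^ N ≤
        kap A M e w * ⨆ i, nvW w (δ i) (f i) y := by
  classical
  choose ρ hρ using hw
  have h1 : ∀ k, ∃ (A : Finset K) (M : ℕ), 1 ≤ M ∧ ∀ (w : AbsoluteValue K ℝ)
      (y : I → Fin n → K), OnS wq y →
      nvW w rI (γ k) y ^ N ≤ kap A M 1 w * ⨆ i, nvW w (δ i) (f i) y := by
    intro k
    obtain ⟨A, M, hM, hA⟩ := locW_null wq ρ hρ f δ hf (γ k) rI (hγ k) N (hspan k)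
    exact ⟨A, M, hM, fun w y hy => hA K w y hy.1 hy.2⟩
  choose A1 M1 hM1 hA1 using h1
  obtain ⟨B1, hB1⟩ := kap_prod_le Finset.univ A1 M1 (fun _ => 1)
  -- coefficients of the `φ k`
  set B2 : Finset K := Finset.univ.biUnion (fun k => cfsW (φ k)) with hB2
  set M2 : ℕ := (∑ k, (φ k).support.card) + 1 with hM2
  refine ⟨B2 ∪ B1, (M2 * (h + 1)) ^ N * ∏ k, M1 k, 1 * N + ∑ _k : Fin h, 1, ?_, ?_⟩
  · exact Nat.mul_pos (Nat.pow_pos (Nat.mul_pos (Nat.succ_pos _) (Nat.succ_pos _)))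
      (Finset.prod_pos (fun k _ => hM1 k))
  intro w Q y hQ hy hev
  set Z := ⨆ i, nvW w (δ i) (f i) y with hZ
  have hZ0 : 0 ≤ Z := Real.iSup_nonneg (fun i => nvW_nonneg _ _ _ _)
  obtain ⟨cQ, rQ, hrQ, hsQ, -⟩ := exists_normW w Q hQ
  obtain ⟨cy, ry, hry, hsy, -⟩ := exists_normW w y hy.1
  have hU : ∀ l : J ⊕ I, Sum.elim rQ ry l ≠ 0 := by
    rintro (l | l)
    · exact hrQ l
    · exact hry l
  have hsc : (fun l => (Sum.elim rQ ry l) • (Sum.elim Q y l)) =
      (Sum.elim (fun l => rQ l • Q l) (fun l => ry l • y l) : J ⊕ I → Fin n → K) := by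
    funext l
    rcases l with l | l <;> rfl
  have hsup : ∀ l : J ⊕ I, (⨆ e, w ((Sum.elim rQ ry l • Sum.elim Q y l) e)) = 1 := by
    rintro (l | l)
    · exact hsQ l
    · exact hsy l
  have h2 : nvW w (Sum.elim sJ rI) R (Sum.elim Q y) =
      w (∑ k, ev (φ k) (fun l => rQ l • Q l) * ev (γ k) (fun l => ry l • y l)) := by
    rw [nvW_norm w _ _ hU hsup hR, ev_smul hR, hev, Finset.mul_sum]
    congr 1
    refine Finset.sum_congr rfl (fun k _ => ?_)
    rw [ev_smul (hφ k), ev_smul (hγ k), Fintype.prod_sum_type]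
    simp only [Sum.elim_inl, Sum.elim_inr]
    ring
  have hx : ∀ k, w (ev (φ k) (fun l => rQ l • Q l)) ≤ kap B2 M2 1 w := by
    intro k
    refine evW_le w _ _ (fun m hm => ?_) _ ?_ _ (fun j e => ?_)
    · rw [hB2, Finset.mem_biUnion]
      exact ⟨k, Finset.mem_univ _, Finset.mem_image_of_mem _ hm⟩
    · have h8 : (φ k).support.card ≤ ∑ k, (φ k).support.card :=
        Finset.single_le_sum (f := fun k => (φ k).support.card) (fun _ _ => Nat.zero_le _)
          (Finset.mem_univ k)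
      omega
    · rw [← hsQ j]
      exact le_supW w _ e
  have hk1 : ∀ k, 1 ≤ kap (A1 k) (M1 k) 1 w := fun k => one_le_kap _ (hM1 k) _ _
  have hy1 : ∀ k, w (ev (γ k) (fun l => ry l • y l)) = nvW w rI (γ k) y := fun k =>
    (nvW_norm w y ry hry hsy (hγ k)).symm
  rw [h2]
  rcases isEmpty_or_nonempty (Fin h) with he | he
  · rw [Finset.univ_eq_empty, Finset.sum_empty, map_zero, zero_pow hN.ne']
    refine mul_nonneg (zero_le_one.trans (one_le_kap _ ?_ _ _)) hZ0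
    exact Nat.mul_pos (Nat.pow_pos (Nat.mul_pos (Nat.succ_pos _) (Nat.succ_pos _)))
      (Finset.prod_pos (fun k _ => hM1 k))
  · obtain ⟨k0, hk0⟩ := Finite.exists_max (fun k => nvW w rI (γ k) y)
    have h3 := sum_mul_le w B2 M2 (fun k => ev (φ k) (fun l => rQ l • Q l))
      (fun k => ev (γ k) (fun l => ry l • y l)) hx (nvW_nonneg w rI (γ k0) y)
      (fun k => by
        rw [hy1]
        exact hk0 k)
    have h4 : kap (A1 k0) (M1 k0) 1 w ≤ ∏ k, kap (A1 k) (M1 k) 1 w := by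
      rw [← Finset.mul_prod_erase Finset.univ (fun k => kap (A1 k) (M1 k) 1 w)
        (Finset.mem_univ k0)]
      exact le_mul_of_one_le_right (zero_le_one.trans (hk1 k0))
        (one_le_prodR _ (fun k _ => hk1 k))
    calc w (∑ k, ev (φ k) (fun l => rQ l • Q l) * ev (γ k) (fun l => ry l • y l)) ^ N
        ≤ (kap B2 (M2 * (h + 1)) 1 w * nvW w rI (γ k0) y) ^ N :=
          pow_le_pow_left₀ (w.nonneg _) h3 N
      _ = kap B2 ((M2 * (h + 1)) ^ N) (1 * N) w * nvW w rI (γ k0) y ^ N := by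
          rw [mul_pow, kap_pow]
      _ ≤ kap B2 ((M2 * (h + 1)) ^ N) (1 * N) w *
            (kap B1 (∏ k, M1 k) (∑ _k : Fin h, 1) w * Z) := by
          refine mul_le_mul_of_nonneg_left ?_ (zero_le_one.trans (one_le_kap _
            (Nat.pow_pos (Nat.mul_pos (Nat.succ_pos _) (Nat.succ_pos _))) _ _))
          exact (hA1 k0 w y hy).trans (mul_le_mul_of_nonneg_right (h4.trans (hB1 K w)) hZ0)
      _ = (kap B2 ((M2 * (h + 1)) ^ N) (1 * N) w * kap B1 (∏ k, M1 k) (∑ _k : Fin h, 1) w) *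
            Z := by ring
      _ ≤ _ := mul_le_mul_of_nonneg_right (kap_mul_le _ _ _ _ _ _ w) hZ0

end locR

section locH

variable {K : Type} [Field K] {ι : Type} [Fintype ι] {n : ℕ} {E : Type} [Fintype E]

/-- the local estimate for the auxiliary form, adapted from `locX_G` -/
theorem locX_H (wq : E → MvPolynomial (ι × Fin n) K)
    (Un : Cond K ι n) {N : ℕ} {κ : Type} [Fintype κ] {n' : ℕ} (σ : κ → ι → ℕ)
    (Fm : κ → Finset (Fin n' → MvPolynomial (ι × Fin n) K))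
    (hLoc : ∀ l, LocF wq Un (σ l) (Fm l))
    (G : MvPolynomial (κ × Fin n') K) (d : κ → ℕ) (hd : MH d G)
    (Z : AbsoluteValue K ℝ → (ι → Fin n → K) → ℝ) (hZ : ∀ w u, 0 ≤ Z w u)
    (h1 : ∀ T : (l : κ) → ↥(Fm l), ∃ (A : Finset K) (M e : ℕ), 1 ≤ M ∧
      ∀ (w : AbsoluteValue K ℝ) (u : ι → Fin n → K), OnS wq u →
        nvW w (fun j => ∑ l, d l * σ l j) (cmp G (fun l => (T l).1)) u ^ N ≤
        kap A M e w * Z w u) :
    ∃ (A : Finset K) (M e : ℕ), 1 ≤ M ∧ ∀ (w : AbsoluteValue K ℝ) (u : ι → Fin n → K),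
      OnS wq u → Un K w u → ∀ t : κ → Fin n' → K, (∀ l, Tg (Fm l) u (t l)) →
        (w (ev G t) / ∏ l, (⨆ c, w (t l c)) ^ d l) ^ N ≤ kap A M e w * Z w u := by
  classical
  choose A1 M1 e1 hM11 hA1 using hLoc
  choose A2 M2 e2 hM21 hA2 using h1
  obtain ⟨B1, hB1⟩ := kap_prod_le Finset.univ A1 (fun i => M1 i ^ (d i * N))
    (fun i => e1 i * (d i * N))
  obtain ⟨B2, hB2⟩ := kap_prod_le Finset.univ A2 M2 e2
  refine ⟨(B1 ∪ B2), ((∏ i, M1 i ^ (d i * N)) * ∏ T, M2 T),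
    ((∑ i, e1 i * (d i * N)) + ∑ T : ((l : κ) → ↥(Fm l)), e2 T), ?_, ?_⟩
  · exact Nat.mul_pos (Finset.prod_pos (fun i _ => pow_pos (hM11 i) _))
      (Finset.prod_pos (fun T _ => hM21 T))
  intro w u hu hUn t ht
  have hk1' : 1 ≤ ∏ i, kap (A1 i) (M1 i ^ (d i * N)) (e1 i * (d i * N)) w :=
    one_le_prodR _ (fun i _ => one_le_kap _ (Nat.one_le_pow _ _ (hM11 i)) _ _)
  have hk2' : 1 ≤ ∏ T, kap (A2 T) (M2 T) (e2 T) w :=
    one_le_prodR _ (fun T _ => one_le_kap _ (hM21 T) _ _)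
  have hcomb : (∏ i, kap (A1 i) (M1 i ^ (d i * N)) (e1 i * (d i * N)) w) *
      (∏ T, kap (A2 T) (M2 T) (e2 T) w) ≤
      kap (B1 ∪ B2) ((∏ i, M1 i ^ (d i * N)) * ∏ T, M2 T)
        ((∑ i, e1 i * (d i * N)) + ∑ T : ((l : κ) → ↥(Fm l)), e2 T) w := by
    refine le_trans ?_ (kap_mul_le B1 B2 _ _ _ _ w)
    exact mul_le_mul (hB1 K w) (hB2 K w) (zero_le_one.trans hk2')
      (zero_le_one.trans (hk1'.trans (hB1 K w)))
  refine le_trans ?_ (mul_le_mul_of_nonneg_right hcomb (hZ w u))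
  choose T0 hT0 r hr1 hr2 using fun l => hA1 l K w u hu hUn (t l) (ht l)
  set T : (l : κ) → ↥(Fm l) := fun l => ⟨T0 l, hT0 l⟩ with hT
  set g : K := ev G t with hg
  set ww : κ → ℝ := fun l => ⨆ c, w (t l c) with hww
  set Q : ι → ℝ := fun j => ⨆ c, w (u j c) with hQ
  have hw0 : ∀ l, 0 < ww l := fun l => sup_posW w (ht l).1
  have hQ0 : ∀ j, 0 < Q j := fun j => sup_posW w (hu.1 j)
  have hk2 : ∀ T, 1 ≤ kap (A2 T) (M2 T) (e2 T) w := fun T => one_le_kap _ (hM21 T) _ _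
  -- value of the form attached to `T`
  have h3 : ev (cmp G (fun l => (T l).1)) u = (∏ l, r l ^ d l) * g := by
    rw [ev_cmp]
    have h3 : (fun (l : κ) (c : Fin n') => ev ((T l).1 c) u) = fun l => r l • t l := by
      funext l
      exact hr1 l
    rw [h3, ev_smul hd]
  have h4 : nvW w (fun j => ∑ l, d l * σ l j) (cmp G (fun l => (T l).1)) u =
      (∏ l, w (r l) ^ d l) * w g / ∏ l, (∏ j, Q j ^ σ l j) ^ d l := by
    unfold nvW
    rw [h3, w.map_mul, w.map_prod]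
    simp_rw [w.map_pow]
    congr 1
    rw [show (∏ j, (⨆ c, w (u j c)) ^ (∑ l, d l * σ l j)) =
      ∏ j, Q j ^ (∑ l, d l * σ l j) from rfl]
    have : ∀ l, (∏ j, Q j ^ σ l j) ^ d l = ∏ j, Q j ^ (d l * σ l j) := by
      intro l
      rw [← Finset.prod_pow]
      refine Finset.prod_congr rfl (fun j _ => ?_)
      rw [← pow_mul, mul_comm]
    simp_rw [this]
    rw [Finset.prod_comm]
    refine Finset.prod_congr rfl (fun j _ => ?_)
    rw [Finset.prod_pow_eq_pow_sum]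
  have h5 : w g / ∏ l, ww l ^ d l ≤ (∏ l, kap (A1 l) (M1 l) (e1 l) w ^ d l) *
      nvW w (fun j => ∑ l, d l * σ l j) (cmp G (fun l => (T l).1)) u := by
    rw [h4]
    have hA0 : 0 < ∏ l, ww l ^ d l := Finset.prod_pos (fun l _ => pow_pos (hw0 l) _)
    have hB0 : 0 < ∏ l, (∏ j, Q j ^ σ l j) ^ d l := Finset.prod_pos
      (fun i _ => pow_pos (Finset.prod_pos (fun j _ => pow_pos (hQ0 j) _)) _)
    rw [← mul_div_assoc, div_le_div_iff₀ hA0 hB0]
    have h6 : ∏ l, (∏ j, Q j ^ σ l j) ^ d l ≤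
        (∏ l, kap (A1 l) (M1 l) (e1 l) w ^ d l) *
          ((∏ l, w (r l) ^ d l) * ∏ l, ww l ^ d l) := by
      rw [← Finset.prod_mul_distrib, ← Finset.prod_mul_distrib]
      refine Finset.prod_le_prod (fun i _ => pow_nonneg (Finset.prod_nonneg
        (fun j _ => pow_nonneg (hQ0 j).le _)) _) (fun i _ => ?_)
      rw [← mul_pow, ← mul_pow]
      exact pow_le_pow_left₀ (Finset.prod_nonneg (fun j _ => pow_nonneg (hQ0 j).le _)) (hr2 i) _
    calc w g * ∏ l, (∏ j, Q j ^ σ l j) ^ d l ≤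
          w g * ((∏ l, kap (A1 l) (M1 l) (e1 l) w ^ d l) *
            ((∏ l, w (r l) ^ d l) * ∏ l, ww l ^ d l)) :=
          mul_le_mul_of_nonneg_left h6 (w.nonneg _)
      _ = _ := by ring
  have h7 : 0 ≤ w g / ∏ l, ww l ^ d l := div_nonneg (w.nonneg _)
    (Finset.prod_nonneg (fun l _ => pow_nonneg (hw0 l).le _))
  calc (w g / ∏ l, ww l ^ d l) ^ N ≤ ((∏ l, kap (A1 l) (M1 l) (e1 l) w ^ d l) *
      nvW w (fun j => ∑ l, d l * σ l j) (cmp G (fun l => (T l).1)) u) ^ N :=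
        pow_le_pow_left₀ h7 h5 N
    _ = (∏ i, kap (A1 i) (M1 i ^ (d i * N)) (e1 i * (d i * N)) w) *
      nvW w (fun j => ∑ l, d l * σ l j) (cmp G (fun l => (T l).1)) u ^ N := by
        rw [mul_pow, ← Finset.prod_pow]
        simp_rw [← pow_mul, kap_pow]
    _ ≤ (∏ i, kap (A1 i) (M1 i ^ (d i * N)) (e1 i * (d i * N)) w) *
          (kap (A2 T) (M2 T) (e2 T) w * Z w u) :=
        mul_le_mul_of_nonneg_left (hA2 T w u hu) (zero_le_one.trans hk1')
    _ ≤ (∏ i, kap (A1 i) (M1 i ^ (d i * N)) (e1 i * (d i * N)) w) *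
            ((∏ T, kap (A2 T) (M2 T) (e2 T) w) * Z w u) := by
        refine mul_le_mul_of_nonneg_left (mul_le_mul_of_nonneg_right ?_ (hZ w u))
          (zero_le_one.trans hk1')
        rw [← Finset.mul_prod_erase Finset.univ (fun T => kap (A2 T) (M2 T) (e2 T) w)
          (Finset.mem_univ T)]
        exact le_mul_of_one_le_right (zero_le_one.trans (hk2 T))
          (one_le_prodR _ (fun T _ => hk2 T))
    _ = _ := by ring

end locH

section fam

variable {K : Type} [Field K] {n β : ℕ} (A : Fin β → AbV K n)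

/-- the varieties of the groups -/
def Vg (L : ℕ) : Gr L β → VarE K n :=
  Sum.elim (fun p => (A p.2).toAbR.var) (fun b => (A b).toAbR.var)

open Classical in
/-- the families of forms -/
noncomputable def FmG {L : ℕ} (j : Fin L) :
    Gr L β → Finset (Fin n → MvPolynomial (Gr L β × Fin n) K) :=
  Sum.elim (fun p => {fun c => X (Sum.inl p, c)})
    (fun b => Finset.univ.image (fun (i : Fin n) (c : Fin n) => Dns.pull (pr j b) ((A b).Λ i c)))

/-- the multidegrees of the families -/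
def sG {L : ℕ} (j : Fin L) : Gr L β → Gr L β → ℕ :=
  Sum.elim (fun p => fun l' : Gr L β => if Sum.inl p = l' then 1 else 0)
      (fun b => fun l' : Gr L β => ∑ x : Fin 2, 2 * if pr j b x = l' then 1 else 0)

lemma exists_c0 {L : ℕ} (j : Fin L) (T : (l : Gr L β) → ↥(FmG A j l)) :
    ∃ c0 : Fin β → Fin n, (fun l => (T l).1) = Cc A j c0 := by
  classical
  have h1 : ∀ b : Fin β, ∃ i : Fin n, (fun c => Dns.pull (pr j b) ((A b).Λ i c)) =
      (T (Sum.inr b)).1 := by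
    intro b
    have h := (T (Sum.inr b)).2
    obtain ⟨i, -, hi⟩ := Finset.mem_image.1 h
    exact ⟨i, hi⟩
  choose c0 hc0 using h1
  refine ⟨c0, funext fun l => ?_⟩
  rcases l with p | b
  · exact Finset.mem_singleton.1 (T (Sum.inl p)).2
  · exact (hc0 b).symm

lemma MH_FmG {L : ℕ} (j : Fin L) (l : Gr L β) (C : Fin n → MvPolynomial (Gr L β × Fin n) K)
    (hC : C ∈ FmG A j l) (c : Fin n) : MH (sG j l) (C c) := by
  classical
  rcases l with p | b
  · have h : C = fun c => X (Sum.inl p, c) := Finset.mem_singleton.1 hC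
    rw [h]
    have := MH_Cc A j (fun _ => c) (Sum.inl p) c
    exact this
  · obtain ⟨i, -, hi⟩ := Finset.mem_image.1 hC
    rw [← hi]
    exact MH_Cc A j (fun _ => i) (Sum.inr b) c

/-- the coordinates of the points `Q` and `P` -/
def vcS {A : Fin β → AbV K n} {F : Type} [Field F] [Algebra K F] {L : ℕ} (Q : Fin L → Bp A F)
    (P : Bp A F) : Gr L β → Fin n → F := Sum.elim (vcT Q) (vc P)

lemma vcS_ne {L : ℕ} {F : Type} [Field F] [Algebra K F] (Q : Fin L → Bp A F) (P : Bp A F)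
    (l : Gr L β) : vcS Q P l ≠ 0 := by
  rcases l with p | b
  · exact (Q p.1 p.2).2.1.ne_zero
  · exact (P b).2.1.ne_zero

lemma vcS_onS {L : ℕ} {F : Type} [Field F] [Algebra K F] (Q : Fin L → Bp A F) (P : Bp A F) :
    OnS (wqX (Vg A L)) (vcS Q P) := by
  refine onS_of (vcS_ne A Q P) ?_
  rintro (p | b) m
  · exact (Q p.1 p.2).2.2 m
  · exact (P b).2.2 m

lemma Tg_FmG {L : ℕ} (j : Fin L) {F : Type} [Field F] [Algebra K F] (Q : Fin L → Bp A F)
    (P : Bp A F) (l : Gr L β) : Tg (FmG A j l) (vcS Q (P + Q j)) (vcS Q P l) := by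
  classical
  refine ⟨vcS_ne A Q P l, fun C hC => ?_⟩
  rcases l with p | b
  · have h : C = fun c => X (Sum.inl p, c) := Finset.mem_singleton.1 hC
    refine ⟨1, funext fun c => ?_⟩
    rw [h]
    simp [ev, vcS]
  · obtain ⟨i, -, rfl⟩ := Finset.mem_image.1 hC
    obtain ⟨s, hs, h⟩ := (A b).Λ_spec F ((P + Q j) b) (Q j b)
    refine ⟨s * (((P + Q j) b) + Q j b).1 i, funext fun c => ?_⟩
    rw [Dns.ev_pull]
    have h1 : (fun l => vcS Q (P + Q j) (pr j b l)) = ![((P + Q j) b).1, (Q j b).1] := by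
      funext l
      fin_cases l <;> rfl
    have h2 : (((A b).grp F).sub ((P + Q j) b) (Q j b)) = P b := by
      change (P + Q j) b - Q j b = P b
      rw [Pi.add_apply, add_sub_cancel_right]
    rw [h1, h i c, h2, ← mul_assoc]
    rfl

lemma isFam_FmG {L : ℕ} (j : Fin L) (l : Gr L β) :
    IsFam (wqX (Vg A L)) (sG j l) (FmG A j l) := by
  classical
  refine ⟨MH_FmG A j l, fun F _ _ u hu => ?_⟩
  rcases l with p | b
  · have h1 := hu.1 (Sum.inl p)
    obtain ⟨c, hc⟩ := Function.ne_iff.mp h1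
    refine ⟨_, Finset.mem_singleton_self _, c, ?_⟩
    simpa [ev] using hc
  · obtain ⟨P, s, hs, rfl⟩ := exists_ptX hu
    let Pb : (A b).Pt F := P (Sum.inr b)
    let Qb : (A b).Pt F := P (Sum.inl (j, b))
    obtain ⟨r, hr, h⟩ := (A b).Λ_spec F Pb Qb
    obtain ⟨i0, hi0, -⟩ := ((A b).grp F).add Pb Qb |>.2.1
    obtain ⟨c0, hc0, -⟩ := ((A b).grp F).sub Pb Qb |>.2.1
    refine ⟨_, Finset.mem_image_of_mem _ (Finset.mem_univ i0), c0, ?_⟩
    rw [Dns.ev_pull]
    have h1 : (fun i => s (pr j b i) • (P (pr j b i)).1) =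
        fun i => (fun i => s (pr j b i)) i • (![Pb.1, Qb.1] : Fin 2 → Fin n → F) i := by
      funext i
      fin_cases i <;> rfl
    rw [h1, ev_smul ((A b).Λ_hom i0 c0), h i0 c0, hi0, hc0]
    refine mul_ne_zero (Finset.prod_ne_zero_iff.2 fun i _ => pow_ne_zero _ (hs _)) ?_
    simpa using hr

lemma deg_eq {L : ℕ} (j : Fin L) (T : ℕ) (r0 : Fin β → ℕ) :
    (fun l' : Gr L β => ∑ l, (Sum.elim (fun _ => T) r0 : Gr L β → ℕ) l * sG j l l') =
      Sum.elim (sj j T r0) (fun b => 2 * r0 b) := by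
  classical
  funext l
  unfold sG
  rw [Fintype.sum_sum_type]
  simp only [Sum.elim_inl, Sum.elim_inr, Fin.sum_univ_two, pr, Matrix.cons_val_zero,
    Matrix.cons_val_one]
  rcases l with p | b
  · simp only [Sum.elim_inl, Sum.inl.injEq, reduceCtorEq, if_false, mul_zero, zero_add]
    rw [Finset.sum_eq_single p]
    · simp only [if_true, mul_one]
      unfold sj
      congr 1
      by_cases hp : p.1 = j
      · rw [if_pos hp, Finset.sum_eq_single p.2]
        · rw [if_pos (by rw [← hp])]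
          ring
        · intro b _ hb
          rw [if_neg (fun h => hb (by rw [← h]))]
          ring
        · simp
      · rw [if_neg hp]
        refine Finset.sum_eq_zero (fun b _ => ?_)
        rw [if_neg (fun h => hp (by rw [← h]))]
        ring
    · intro p' _ hp'
      rw [if_neg hp']
      ring
    · simp
  · simp only [Sum.elim_inr, Sum.inr.injEq, reduceCtorEq, if_false, mul_zero, add_zero,
      Finset.sum_const_zero, zero_add]
    rw [Finset.sum_eq_single b]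
    · simp only [if_true, mul_one]
      ring
    · intro b' _ hb'
      rw [if_neg hb']
      ring
    · simp

end fam

/-- Hypersurfaces of small degree in `P` through the points with `P + Q j` in a closed subset of
codimension two, generic version. -/
theorem hypG (K : Type) [Field K] (n β : ℕ) (A : Fin β → AbV K n) (E : Type) [Fintype E]
    (f : E → MvPolynomial (Fin β × Fin n) K) (δ : E → Fin β → ℕ) (hf : ∀ i, MH (δ i) (f i))
    (hcod : CodimB A f 2) :
    ∃ C N : ℕ, 0 < N ∧ ∀ L : ℕ, ∃ (D T : ℕ) (r0 : Fin β → ℕ)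
      (G : MvPolynomial (Gr L β × Fin n) K),
      D ^ 2 ≤ C * (L + 1) ∧ (∀ b, r0 b ≤ D) ∧ MH (Sum.elim (fun _ => T) r0) G ∧
      Gen.N (Bl A L) G ∧
      ∃ (M e : ℕ) (A0 : Finset K), 1 ≤ M ∧ ∀ (w : AbsoluteValue K ℝ) (P : Bp A K)
        (Q : Fin L → Bp A K) (j : Fin L),
        nvW w (Sum.elim (fun _ => T) r0) G (vcS Q P) ^ N ≤
          kap A0 M e w * ⨆ i, nvW w (δ i) (f i) (vc (P + Q j)) := by
  classical
  let e' := Fintype.equivFin E
  obtain ⟨N, hN, t', F, iF, iA, η, hη0, hη1, hη2, hη3⟩ := nullW K (HypL.wB A)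
    (wqX_MH _) (fun i => f (e'.symm i)) (fun i => ⟨_, hf _⟩)
  have hP : ∀ i, ∃ P : Bp A (F i), vc P = η i := by
    intro i
    refine ⟨fun b => ⟨η i b, hη0 i b, fun m => ?_⟩, rfl⟩
    have h2 := hη1 i ⟨b, m⟩
    unfold HypL.wB wqX at h2
    rw [ev_rename] at h2
    exact h2
  choose P hP using hP
  obtain ⟨C, hC⟩ := auxG A F P (fun i => hcod (F i) (P i) (fun j => by
    rw [hP]
    have := hη2 i (e' j)
    simpa using this))
  refine ⟨C, N, hN, fun L => ?_⟩
  obtain ⟨D, T, r0, G, h1, h2, h3, h4, h5⟩ := hC L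
  refine ⟨D, T, r0, G, h1, h2, h3, h4, ?_⟩
  have hloc : ∀ j : Fin L, ∃ (A0 : Finset K) (M e : ℕ), 1 ≤ M ∧ ∀ (w : AbsoluteValue K ℝ)
      (P : Bp A K) (Q : Fin L → Bp A K), nvW w (Sum.elim (fun _ => T) r0) G (vcS Q P) ^ N ≤
        kap A0 M e w * ⨆ i, nvW w (δ i) (f i) (vc (P + Q j)) := by
    intro j
    have hrow : ∀ c0 : Fin β → Fin n, ∃ (A0 : Finset K) (M e : ℕ), 1 ≤ M ∧
        ∀ (w : AbsoluteValue K ℝ) (u : Gr L β → Fin n → K), OnS (wqX (Vg A L)) u →
        nvW w (Sum.elim (sj j T r0) (fun b => 2 * r0 b)) (cmp G (Cc A j c0)) u ^ N ≤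
        kap A0 M e w * ⨆ i, nvW w (δ i) (f i) (fun b => u (Sum.inr b)) := by
      intro c0
      obtain ⟨h, φ, γ, hφ, hγ, hγ0, hid⟩ := h5 j c0
      obtain ⟨A0, M, e, hM, hA0⟩ := locR (HypL.wB A) (wqX_MH _) (fun i => f (e'.symm i))
        (fun i => δ (e'.symm i)) (fun i => hf _) hN φ γ hφ hγ
        (fun k c => hη3 (γ k) ⟨_, hγ k⟩ (fun i => by rw [← hP]; exact hγ0 k i) c)
        (MH_cmpCc A j c0 h3)
      refine ⟨A0, M, e, hM, fun w u hu => ?_⟩
      obtain ⟨R, s, hs, rfl⟩ := exists_ptX hu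
      have hR := MH_cmpCc A j c0 h3
      let QR : Fin L × Fin β → Fin n → K := fun p => (R (Sum.inl p)).1
      let yR : Fin β → Fin n → K := fun b => (R (Sum.inr b)).1
      have e1 : (fun l => (R l).1) = (Sum.elim QR yR : Gr L β → Fin n → K) := by
        funext l
        rcases l with l | l <;> rfl
      have e2 : nvW w (Sum.elim (sj j T r0) (fun b => 2 * r0 b)) (cmp G (Cc A j c0))
          (fun l => s l • (R l).1) =
          nvW w (Sum.elim (sj j T r0) (fun b => 2 * r0 b)) (cmp G (Cc A j c0))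
            (Sum.elim QR yR) := by
        rw [nvW_smul w hR s hs, e1]
      have e3 : ∀ i, nvW w (δ i) (f i) (fun b => s (Sum.inr b) • (R (Sum.inr b)).1) =
          nvW w (δ i) (f i) yR := fun i =>
        nvW_smul w (hf i) (fun b => s (Sum.inr b)) (fun b => hs _) yR
      rw [e2]
      simp only [e3]
      have h6 := hA0 w QR yR (fun p => (R (Sum.inl p)).2.1.ne_zero)
        (onS_of (fun b => (R (Sum.inr b)).2.1.ne_zero) (fun b m => (R (Sum.inr b)).2.2 m))
        (hid K QR yR (fun p => ⟨R (Sum.inl p), rfl⟩))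
      have h9 : (⨆ i, nvW w (δ (e'.symm i)) (f (e'.symm i)) yR) =
          ⨆ i, nvW w (δ i) (f i) yR :=
        Equiv.iSup_comp (g := fun i => nvW w (δ i) (f i) yR) e'.symm
      rw [h9] at h6
      exact h6
    obtain ⟨A0, M, e, hM, hA0⟩ := locX_H (wqX (Vg A L)) (fun _ _ _ _ _ => True) (N := N)
      (sG j) (FmG A j) (fun l => locF_fam (wqX (Vg A L)) (wqX_MH _) _ _ (isFam_FmG A j l))
      G _ h3 (fun w u => ⨆ i, nvW w (δ i) (f i) (fun b => u (Sum.inr b)))
      (fun w u => Real.iSup_nonneg (fun _ => nvW_nonneg _ _ _ _))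
      (fun T' => by
        obtain ⟨c0, hc0⟩ := exists_c0 A j T'
        rw [hc0, deg_eq]
        exact hrow c0)
    refine ⟨A0, M, e, hM, fun w P Q => ?_⟩
    exact hA0 w (vcS Q (P + Q j)) (vcS_onS A Q _) trivial (vcS Q P) (fun l => Tg_FmG A j Q P l)
  choose A0 M e hM hA0 using hloc
  obtain ⟨B, hB⟩ := kap_prod_le Finset.univ A0 M e
  refine ⟨∏ i, M i, ∑ i, e i, B, Nat.succ_le_of_lt (Finset.prod_pos (fun i _ => hM i)),
    fun w R Q i => ?_⟩
  refine (hA0 i w R Q).trans (mul_le_mul_of_nonneg_right ?_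
    (Real.iSup_nonneg (fun _ => nvW_nonneg _ _ _ _)))
  refine le_trans ?_ (hB K w)
  have hk : ∀ i, 1 ≤ kap (A0 i) (M i) (e i) w := fun i => one_le_kap _ (hM i) _ _
  rw [← Finset.mul_prod_erase Finset.univ (fun i => kap (A0 i) (M i) (e i) w)
    (Finset.mem_univ i)]
  exact le_mul_of_one_le_right (zero_le_one.trans (hk i)) (one_le_prodR _ (fun j _ => hk j))

end Pool.Agent.J4H27.AB
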