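import Pool.Agent.TH954.Z.Dense
import Pool.Agent.TH954.X.Gen

/-!
# Forms in two sets of groups of variables, one set specialised to a generic vector
-/

set_option autoImplicit false
set_option linter.unusedSectionVars false

open MvPolynomial Pool.Agent.TH954.X

namespace Pool.Agent.J4H27.AB

section vs

variable {K : Type} [Field K] {J : Type} [Fintype J] {n : ℕ}

/-- the forms of multidegree `σ` -/
def mh (K : Type) [Field K] {J : Type} {n : ℕ} (σ : J → ℕ) :
    Submodule K (MvPolynomial (J × Fin n) K) where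
  carrier := {f | MH σ f}
  add_mem' := by
    classical
    intro a b ha hb m hm j
    rcases Finset.mem_union.mp (support_add hm) with h | h
    · exact ha m h j
    · exact hb m h j
  zero_mem' := by
    intro m hm
    simp at hm
  smul_mem' := by
    intro c x hx m hm j
    exact hx m (support_smul hm) j

lemma mem_mh {σ : J → ℕ} {f : MvPolynomial (J × Fin n) K} : f ∈ mh K σ ↔ MH σ f := Iff.rfl

variable {Ω : Type} [Field Ω] [Algebra K Ω] (u : J → Fin n → Ω)

/-- the values at `u` of the forms of multidegree `σ` -/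
noncomputable def vs (K : Type) [Field K] {J : Type} {n : ℕ} {Ω : Type} [Field Ω] [Algebra K Ω]
    (u : J → Fin n → Ω) (σ : J → ℕ) : Submodule K Ω :=
  (mh K σ).map (aeval (R := K) (fun p : J × Fin n => u p.1 p.2)).toLinearMap

lemma mem_vs {σ : J → ℕ} {x : Ω} :
    x ∈ vs K u σ ↔ ∃ f : MvPolynomial (J × Fin n) K, MH σ f ∧ ev f u = x := by
  unfold vs
  rw [Submodule.mem_map]
  rfl

lemma ev_mem_vs {σ : J → ℕ} {f : MvPolynomial (J × Fin n) K} (hf : MH σ f) :
    ev f u ∈ vs K u σ := (mem_vs u).2 ⟨f, hf, rfl⟩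

lemma vs_le_span (σ : J → ℕ) (T : ℕ) (hσ : ∀ j, σ j ≤ T) :
    vs K u σ ≤ Submodule.span K (Set.range (fun a : J × Fin n → Fin (T + 1) =>
      ∏ p, u p.1 p.2 ^ (a p : ℕ))) := by
  intro x hx
  obtain ⟨f, hf, rfl⟩ := (mem_vs u).1 hx
  rw [ev_expand]
  refine Submodule.sum_mem _ (fun m hm => ?_)
  rw [← Algebra.smul_def]
  refine Submodule.smul_mem _ _ (Submodule.subset_span ?_)
  have h1 : ∀ p : J × Fin n, m p < T + 1 := by
    intro p
    have h2 : m p ≤ ∑ c, m (p.1, c) :=
      Finset.single_le_sum (f := fun c => m (p.1, c)) (fun _ _ => Nat.zero_le _)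
        (Finset.mem_univ p.2)
    rw [hf m hm p.1] at h2
    exact Nat.lt_succ_of_le (h2.trans (hσ p.1))
  exact ⟨fun p => ⟨m p, h1 p⟩, rfl⟩

lemma vs_fin (σ : J → ℕ) : Module.Finite K (vs K u σ) := by
  classical
  have h := vs_le_span (K := K) u σ (∑ j, σ j) (fun j =>
    Finset.single_le_sum (f := σ) (fun _ _ => Nat.zero_le _) (Finset.mem_univ j))
  have h2 : Module.Finite K (Submodule.span K (Set.range
      (fun a : J × Fin n → Fin ((∑ j, σ j) + 1) => ∏ p, u p.1 p.2 ^ (a p : ℕ)))) :=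
    Module.Finite.span_of_finite K (Set.finite_range _)
  exact Submodule.finiteDimensional_of_le h

lemma vs_finrank_le (σ : J → ℕ) (T : ℕ) (hσ : ∀ j, σ j ≤ T) :
    Module.finrank K (vs K u σ) ≤ (T + 1) ^ (Fintype.card J * n) := by
  classical
  have h := vs_le_span (K := K) u σ T hσ
  have h2 : Module.Finite K (Submodule.span K (Set.range
      (fun a : J × Fin n → Fin (T + 1) => ∏ p, u p.1 p.2 ^ (a p : ℕ)))) :=
    Module.Finite.span_of_finite K (Set.finite_range _)
  refine (Submodule.finrank_mono h).trans ?_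
  refine (finrank_range_le_card (R := K) _).trans ?_
  rw [Fintype.card_fun, Fintype.card_fin, Fintype.card_prod, Fintype.card_fin]

variable {u}

lemma vs_mono (hu : ∀ j, ∃ c, u j c = 1) {σ σ' : J → ℕ} (h : ∀ j, σ j ≤ σ' j) :
    vs K u σ ≤ vs K u σ' := by
  classical
  choose c hc using hu
  intro x hx
  obtain ⟨f, hf, rfl⟩ := (mem_vs u).1 hx
  have h1 := MH_prod (K := K) Finset.univ (fun (i : J) (j : J) =>
    (σ' i - σ i) * (if j = i then 1 else 0)) (fun i => X (i, c i) ^ (σ' i - σ i))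
    (fun i _ => MH_pow (Gen.MH_X (K := K) (n := n) i (c i)) (σ' i - σ i))
  have h2 := MH_mul hf h1
  have h3 : (fun i => σ i + ∑ i_1, (σ' i_1 - σ i_1) * (if i = i_1 then 1 else 0)) = σ' := by
    funext i
    have : ∑ i_1, (σ' i_1 - σ i_1) * (if i = i_1 then 1 else 0) = σ' i - σ i := by
      rw [Finset.sum_eq_single i]
      · simp
      · intro b _ hb
        rw [if_neg (Ne.symm hb), mul_zero]
      · simp
    rw [this]
    have := h i
    omega
  rw [h3] at h2
  refine (mem_vs u).2 ⟨_, h2, ?_⟩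
  unfold ev
  rw [map_mul, map_prod]
  simp only [map_pow, aeval_X, hc, one_pow, Finset.prod_const_one, mul_one]

lemma exists_growth (hu : ∀ j, ∃ c, u j c = 1) (a : ℕ) :
    ∃ T : ℕ, Module.finrank K (vs K u (fun _ => T + a)) ≤
        2 * Module.finrank K (vs K u (fun _ => T)) ∧
      0 < Module.finrank K (vs K u (fun _ => T)) := by
  classical
  have hfin : ∀ σ : J → ℕ, Module.Finite K (vs K u σ) := fun σ => vs_fin u σ
  have hpos : ∀ T : ℕ, 0 < Module.finrank K (vs K u (fun _ => T)) := by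
    intro T
    have h1 : (1 : Ω) ∈ vs K u (fun _ => T) := by
      refine vs_mono hu (σ := fun _ => 0) (fun _ => Nat.zero_le _) ?_
      refine (mem_vs u).2 ⟨1, MH_one, ?_⟩
      unfold ev
      rw [map_one]
    have : Nontrivial (vs K u (fun _ => T)) :=
      ⟨⟨⟨1, h1⟩, 0, fun h => one_ne_zero (congrArg Subtype.val h)⟩⟩
    exact Module.finrank_pos
  by_contra hcon
  push Not at hcon
  have h1 : ∀ T : ℕ, 2 * Module.finrank K (vs K u (fun _ => T)) <
      Module.finrank K (vs K u (fun _ => T + a)) := by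
    intro T
    by_contra h
    exact absurd (hpos T) (not_lt.2 (hcon T (not_lt.1 h)))
  have h2 : ∀ k : ℕ, 2 ^ k ≤ Module.finrank K (vs K u (fun _ => k * a)) := by
    intro k
    induction k with
    | zero =>
      have := hpos (0 * a)
      rw [pow_zero]
      exact this
    | succ k ih =>
      have h3 := h1 (k * a)
      have h4 : (fun _ : J => (k + 1) * a) = fun _ => k * a + a := by
        funext _
        ring
      rw [h4, pow_succ]
      omega
  set N := Fintype.card J * n with hN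
  have h3 : ∀ k : ℕ, 1 ≤ k → (2 : ℝ) ^ k ≤ ((a + 1 : ℕ) : ℝ) ^ N * (k : ℝ) ^ N := by
    intro k hk
    have h4 := (h2 k).trans (vs_finrank_le u (fun _ => k * a) (k * a) (fun _ => le_rfl))
    have h5 : (k * a + 1) ^ N ≤ ((a + 1) * k) ^ N := by
      refine Nat.pow_le_pow_left ?_ _
      nlinarith
    have h6 := h4.trans h5
    rw [mul_pow] at h6
    exact_mod_cast h6
  have h4 := tendsto_pow_const_div_const_pow_of_one_lt N (r := (2 : ℝ)) (by norm_num)
  have h5 : (0 : ℝ) < 1 / (((a + 1 : ℕ) : ℝ) ^ N + 1) := by positivity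
  obtain ⟨k, hk, hk1⟩ := ((h4.eventually (gt_mem_nhds h5)).and
    (Filter.eventually_ge_atTop 1)).exists
  have h6 := h3 k hk1
  rw [div_lt_div_iff₀ (by positivity) (by positivity), one_mul] at hk
  have h7 : (0 : ℝ) ≤ (k : ℝ) ^ N := by positivity
  nlinarith

end vs

section split

variable {K : Type} [Field K] {J I : Type} [Fintype J] [Fintype I] {n : ℕ}

/-- the exponents in the groups `J` -/
noncomputable def mJ (m : (J ⊕ I) × Fin n →₀ ℕ) : J × Fin n →₀ ℕ :=
  Finsupp.equivFunOnFinite.symm (fun p => m (Sum.inl p.1, p.2))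

/-- the exponents in the groups `I` -/
noncomputable def mI (m : (J ⊕ I) × Fin n →₀ ℕ) : I × Fin n →₀ ℕ :=
  Finsupp.equivFunOnFinite.symm (fun p => m (Sum.inr p.1, p.2))

lemma mJ_apply (m : (J ⊕ I) × Fin n →₀ ℕ) (p : J × Fin n) : mJ m p = m (Sum.inl p.1, p.2) := rfl

lemma mI_apply (m : (J ⊕ I) × Fin n →₀ ℕ) (p : I × Fin n) : mI m p = m (Sum.inr p.1, p.2) := rfl

lemma prod_split {F : Type} [Field F] (m : (J ⊕ I) × Fin n →₀ ℕ) (Q : J → Fin n → F)
    (y : I → Fin n → F) :
    ∏ p : (J ⊕ I) × Fin n, (Sum.elim Q y) p.1 p.2 ^ m p =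
      (∏ p : J × Fin n, Q p.1 p.2 ^ mJ m p) * ∏ p : I × Fin n, y p.1 p.2 ^ mI m p := by
  rw [Fintype.prod_prod_type, Fintype.prod_sum_type, Fintype.prod_prod_type,
    Fintype.prod_prod_type]
  rfl

open Classical in
/-- the coefficient of the monomial `e` in the groups `I` -/
noncomputable def cf (e : I × Fin n →₀ ℕ) (R : MvPolynomial ((J ⊕ I) × Fin n) K) :
    MvPolynomial (J × Fin n) K :=
  ∑ m ∈ R.support with mI m = e, monomial (mJ m) (coeff m R)

lemma MH_cf {s : J → ℕ} {r : I → ℕ} {R : MvPolynomial ((J ⊕ I) × Fin n) K}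
    (hR : MH (Sum.elim s r) R) (e : I × Fin n →₀ ℕ) : MH s (cf e R) := by
  classical
  unfold cf
  refine MH_sum _ _ _ (fun m hm => ?_)
  rw [Finset.mem_filter] at hm
  intro m' hm' j
  have h1 := Finset.mem_of_subset support_monomial_subset hm'
  rw [Finset.mem_singleton] at h1
  rw [h1]
  exact hR m hm.1 (Sum.inl j)

lemma ev_cf {F : Type} [Field F] [Algebra K F] (Q : J → Fin n → F)
    (e : I × Fin n →₀ ℕ) (R : MvPolynomial ((J ⊕ I) × Fin n) K) [DecidableEq (I × Fin n →₀ ℕ)] :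
    ev (cf e R) Q = ∑ m ∈ R.support with mI m = e,
      algebraMap K F (coeff m R) * ∏ p, Q p.1 p.2 ^ mJ m p := by
  classical
  unfold ev cf
  rw [map_sum]
  refine Finset.sum_congr (by ext; simp) (fun m _ => ?_)
  rw [aeval_monomial, Finsupp.prod_fintype _ _ (fun _ => pow_zero _)]

/-- coefficientwise application of the functional `ρ` to the form with the first groups
specialised to `u` -/
noncomputable def gam {Ω : Type} [Field Ω] [Algebra K Ω] (u : J → Fin n → Ω) (ρ : Ω →ₗ[K] K)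
    (R : MvPolynomial ((J ⊕ I) × Fin n) K) : MvPolynomial (I × Fin n) K :=
  ∑ m ∈ R.support, monomial (mI m) (coeff m R * ρ (∏ p, u p.1 p.2 ^ mJ m p))

lemma MH_gam {Ω : Type} [Field Ω] [Algebra K Ω] (u : J → Fin n → Ω) (ρ : Ω →ₗ[K] K)
    {s : J → ℕ} {r : I → ℕ} {R : MvPolynomial ((J ⊕ I) × Fin n) K}
    (hR : MH (Sum.elim s r) R) : MH r (gam u ρ R) := by
  classical
  unfold gam
  refine MH_sum _ _ _ (fun m hm => ?_)
  intro m' hm' j
  have h1 := Finset.mem_of_subset support_monomial_subset hm'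
  rw [Finset.mem_singleton] at h1
  rw [h1]
  exact hR m hm (Sum.inr j)

lemma ev_gam {Ω : Type} [Field Ω] [Algebra K Ω] (u : J → Fin n → Ω) (ρ : Ω →ₗ[K] K)
    (R : MvPolynomial ((J ⊕ I) × Fin n) K) {F : Type} [Field F] [Algebra K F]
    (y : I → Fin n → F) :
    ev (gam u ρ R) y = ∑ m ∈ R.support, algebraMap K F (coeff m R *
      ρ (∏ p, u p.1 p.2 ^ mJ m p)) * ∏ p, y p.1 p.2 ^ mI m p := by
  unfold ev gam
  rw [map_sum]
  refine Finset.sum_congr rfl (fun m _ => ?_)
  rw [aeval_monomial, Finsupp.prod_fintype _ _ (fun _ => pow_zero _)]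

/-- the value of `gam` is linear in the form -/
noncomputable def lr {Ω : Type} [Field Ω] [Algebra K Ω] (u : J → Fin n → Ω) (ρ : Ω →ₗ[K] K)
    {F : Type} [Field F] [Algebra K F] (y : I → Fin n → F) :
    MvPolynomial ((J ⊕ I) × Fin n) K →ₗ[K] F :=
  (basisMonomials ((J ⊕ I) × Fin n) K).constr K (fun m =>
    ρ (∏ p, u p.1 p.2 ^ mJ m p) • ∏ p, y p.1 p.2 ^ mI m p)

lemma lr_apply {Ω : Type} [Field Ω] [Algebra K Ω] (u : J → Fin n → Ω) (ρ : Ω →ₗ[K] K)
    {F : Type} [Field F] [Algebra K F] (y : I → Fin n → F)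
    (R : MvPolynomial ((J ⊕ I) × Fin n) K) : lr u ρ y R = ev (gam u ρ R) y := by
  rw [ev_gam]
  conv_lhs => rw [R.as_sum]
  rw [map_sum]
  refine Finset.sum_congr rfl (fun m _ => ?_)
  have h1 : monomial m (coeff m R) = coeff m R • (basisMonomials ((J ⊕ I) × Fin n) K) m := by
    rw [coe_basisMonomials, smul_monomial, smul_eq_mul, mul_one]
  rw [h1, map_smul, lr, Module.Basis.constr_basis, smul_smul, Algebra.smul_def]

/-- the expansion along a basis of the values at the generic vector -/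
lemma expand {Ω : Type} [Field Ω] [Algebra K Ω] (C : J → Blk K n) (u : J → Fin n → Ω)
    (hgen : ∀ (Φ : MvPolynomial (J × Fin n) K) (τ : J → ℕ), MH τ Φ → Gen.N C Φ → ev Φ u ≠ 0)
    {s : J → ℕ} {r : I → ℕ} {R : MvPolynomial ((J ⊕ I) × Fin n) K}
    (hR : MH (Sum.elim s r) R) {h : ℕ} (φ : Fin h → MvPolynomial (J × Fin n) K)
    (hφ : ∀ k, MH s (φ k)) (ρ : Fin h → Ω →ₗ[K] K)
    (hρ : ∀ x ∈ vs K u s, x = ∑ k, ρ k x • ev (φ k) u)
    {F : Type} [Field F] [Algebra K F] (Q : J → Fin n → F) (hQ : ∀ j, Gen.Pv (C j) (Q j))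
    (y : I → Fin n → F) :
    ev R (Sum.elim Q y) = ∑ k, ev (φ k) Q * ev (gam u (ρ k) R) y := by
  classical
  -- the coefficients
  have h1 : ∀ e : I × Fin n →₀ ℕ, ev (cf e R) Q =
      ∑ k, algebraMap K F (ρ k (ev (cf e R) u)) * ev (φ k) Q := by
    intro e
    set x := ev (cf e R) u with hx
    have hxm : x ∈ vs K u s := ev_mem_vs u (MH_cf hR e)
    set Φ : MvPolynomial (J × Fin n) K := cf e R - ∑ k, (ρ k x) • φ k with hΦ
    have hMH : MH s Φ := by
      rw [hΦ, ← mem_mh]
      refine Submodule.sub_mem _ (mem_mh.2 (MH_cf hR e)) (Submodule.sum_mem _ (fun k _ => ?_))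
      exact Submodule.smul_mem _ _ (mem_mh.2 (hφ k))
    have hzero : ev Φ u = 0 := by
      have h2 : ev Φ u = x - ∑ k, (ρ k x) • ev (φ k) u := by
        rw [hΦ, hx]
        simp only [ev, map_sub, map_sum, map_smul]
      rw [h2, ← hρ x hxm, sub_self]
    have h3 : ev Φ Q = 0 := by
      by_contra hne
      exact hgen Φ s hMH ⟨F, inferInstance, inferInstance, Q, hQ, hne⟩ hzero
    have h4 : ev Φ Q = ev (cf e R) Q - ∑ k, (ρ k x) • ev (φ k) Q := by
      rw [hΦ]
      simp only [ev, map_sub, map_sum, map_smul]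
    rw [h4, sub_eq_zero] at h3
    rw [h3]
    refine Finset.sum_congr rfl (fun k _ => ?_)
    rw [Algebra.smul_def]
  -- fibrewise sums
  have h2 : ∀ g : ((J ⊕ I) × Fin n →₀ ℕ) → F, ∑ m ∈ R.support, g m =
      ∑ e ∈ R.support.image mI, ∑ m ∈ R.support with mI m = e, g m := by
    intro g
    exact (Finset.sum_fiberwise_of_maps_to (fun m hm => Finset.mem_image_of_mem mI hm) g).symm
  have h3 : ev R (Sum.elim Q y) = ∑ e ∈ R.support.image mI,
      ev (cf e R) Q * ∏ p, y p.1 p.2 ^ e p := by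
    rw [ev_expand, h2]
    refine Finset.sum_congr rfl (fun e _ => ?_)
    rw [ev_cf, Finset.sum_mul]
    refine Finset.sum_congr rfl (fun m hm => ?_)
    rw [Finset.mem_filter] at hm
    rw [prod_split, ← hm.2]
    ring
  have h4 : ∀ k, ev (gam u (ρ k) R) y = ∑ e ∈ R.support.image mI,
      algebraMap K F (ρ k (ev (cf e R) u)) * ∏ p, y p.1 p.2 ^ e p := by
    intro k
    rw [ev_gam, h2]
    refine Finset.sum_congr rfl (fun e _ => ?_)
    rw [ev_cf, map_sum, map_sum, Finset.sum_mul]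
    refine Finset.sum_congr rfl (fun m hm => ?_)
    rw [Finset.mem_filter] at hm
    rw [← hm.2, ← Algebra.smul_def (R := K) (A := Ω), map_smul, smul_eq_mul]
  rw [h3]
  simp_rw [h4, h1, Finset.mul_sum, Finset.sum_mul]
  rw [Finset.sum_comm]
  refine Finset.sum_congr rfl (fun k _ => Finset.sum_congr rfl (fun e _ => ?_))
  ring

/-- a basis of the space of values with the coordinates -/
lemma exists_basis {Ω : Type} [Field Ω] [Algebra K Ω] (u : J → Fin n → Ω) (s : J → ℕ) :
    ∃ (φ : Fin (Module.finrank K (vs K u s)) → MvPolynomial (J × Fin n) K)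
      (ρ : Fin (Module.finrank K (vs K u s)) → Ω →ₗ[K] K), (∀ k, MH s (φ k)) ∧
      LinearIndependent K (fun k => ev (φ k) u) ∧
      ∀ x ∈ vs K u s, x = ∑ k, ρ k x • ev (φ k) u := by
  have hfin : Module.Finite K (vs K u s) := vs_fin u s
  let b := Module.finBasis K (vs K u s)
  have h1 : ∀ k, ∃ f : MvPolynomial (J × Fin n) K, MH s f ∧ ev f u = (b k : Ω) :=
    fun k => (mem_vs u).1 (b k).2
  choose φ hφ1 hφ2 using h1
  have h2 : ∀ k, ∃ g : Ω →ₗ[K] K, g ∘ₗ (vs K u s).subtype = b.coord k :=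
    fun k => LinearMap.exists_extend _
  choose ρ hρ using h2
  refine ⟨φ, ρ, hφ1, ?_, fun x hx => ?_⟩
  · have h3 : (fun k => ev (φ k) u) = fun k => ((vs K u s).subtype (b k)) := by
      funext k
      exact hφ2 k
    rw [h3]
    exact b.linearIndependent.map' (vs K u s).subtype (Submodule.ker_subtype _)
  · have h3 : ∀ k, ρ k x = b.repr ⟨x, hx⟩ k := by
      intro k
      have := LinearMap.congr_fun (hρ k) ⟨x, hx⟩
      exact this
    have h4 := congrArg Subtype.val (b.sum_repr ⟨x, hx⟩)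
    rw [Submodule.coe_sum] at h4
    refine h4.symm.trans (Finset.sum_congr rfl (fun k _ => ?_))
    rw [h3, hφ2]
    rfl

end split

end Pool.Agent.J4H27.AB
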