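import Pool.Agent.J4H27.AB.Fin

/-!
# The number of hypersurfaces for the points of height at most `T`
-/

set_option autoImplicit false
set_option linter.unusedSectionVars false

open MvPolynomial Pool.Agent.TH954.X Pool.Agent.TH954.V Pool.Agent.TH954.Z
  Pool.Agent.TH954.Y NumberField Height

namespace Pool.Agent.J4H27.AB

variable {K : Type} [Field K] [NumberField K] {n β : ℕ} {A : Fin β → AbV K n}

lemma pow_cov {X : Set (Bp A K)} {N0 N d0 d : ℕ} (h0 : Cov A N0 d0 {P | P ∈ X ∧ ht P ≤ 1})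
    (h : ∀ T : ℝ, Cov A N d {P | P ∈ X ∧ T / 2 ≤ ht P ∧ ht P ≤ T}) (k : ℕ) :
    Cov A (N0 + N * k) (max d0 d) {P | P ∈ X ∧ ht P ≤ 2 ^ k} := by
  induction k with
  | zero =>
    have h1 := h0.monod (le_max_left d0 d)
    simpa using h1
  | succ k ih =>
    have h1 := ih.union ((h (2 ^ (k + 1))).monod (le_max_right d0 d))
    rw [max_self] at h1
    have h2 : N0 + N * k + N = N0 + N * (k + 1) := by ring
    rw [h2] at h1
    refine h1.sub ?_
    rintro P ⟨hP1, hP2⟩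
    rcases le_total (ht P) (2 ^ k) with h3 | h3
    · exact Or.inl ⟨hP1, h3⟩
    · refine Or.inr ⟨hP1, ?_, hP2⟩
      rw [pow_succ]
      linarith

lemma log_cov {X : Set (Bp A K)} {N0 N d0 d : ℕ} (h0 : Cov A N0 d0 {P | P ∈ X ∧ ht P ≤ 1})
    (h : ∀ T : ℝ, Cov A N d {P | P ∈ X ∧ T / 2 ≤ ht P ∧ ht P ≤ T}) :
    ∃ (C : ℝ) (d' : ℕ), ∀ T : ℝ, 2 ≤ T → ∃ M : ℕ, (M : ℝ) ≤ C * Real.log T ∧
      Cov A M d' {P | P ∈ X ∧ ht P ≤ T} := by
  have hl2 : 0 < Real.log 2 := Real.log_pos (by norm_num)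
  refine ⟨(N0 + 2 * N) / Real.log 2, max d0 d, fun T hT => ?_⟩
  have hlT : Real.log 2 ≤ Real.log T := Real.log_le_log (by norm_num) hT
  set k : ℕ := ⌈Real.log T / Real.log 2⌉₊ with hk
  have hk1 : Real.log T / Real.log 2 ≤ k := Nat.le_ceil _
  have hk2 : (k : ℝ) < Real.log T / Real.log 2 + 1 :=
    Nat.ceil_lt_add_one (div_nonneg (hl2.le.trans hlT) hl2.le)
  have h1 : 1 ≤ Real.log T / Real.log 2 := by
    rw [le_div_iff₀ hl2, one_mul]
    exact hlT
  refine ⟨N0 + N * k, ?_, (pow_cov h0 h k).sub ?_⟩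
  · push_cast
    have h2 : (N0 + 2 * N) / Real.log 2 * Real.log T =
        (N0 + 2 * N) * (Real.log T / Real.log 2) := by ring
    rw [h2]
    have h3 : (0 : ℝ) ≤ N0 := Nat.cast_nonneg _
    have h4 : (0 : ℝ) ≤ N := Nat.cast_nonneg _
    nlinarith
  · rintro P ⟨hP1, hP2⟩
    refine ⟨hP1, hP2.trans ?_⟩
    rw [div_le_iff₀ hl2] at hk1
    have h5 : Real.log T ≤ Real.log (2 ^ k) := by
      rw [Real.log_pow]
      exact hk1
    exact (Real.log_le_log_iff (by linarith) (by positivity)).1 h5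

end Pool.Agent.J4H27.AB
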