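import Pool.Agent.J4H27.AB.HypG

/-!
# Choice of points in general position in a set of points outside hypersurfaces of small degree
-/

set_option autoImplicit false
set_option linter.unusedSectionVars false

open MvPolynomial Pool.Agent.TH954.X Pool.Agent.TH954.V Pool.Agent.TH954.Z

namespace Pool.Agent.J4H27.AB

section slot

variable {K : Type} [Field K] {n β : ℕ}

/-- no form of multidegree `τ` vanishes at the points of `E`, except those that vanish on `B` -/
def Gnr (A : Fin β → AbV K n) (E : Set (Bp A K)) (τ : Fin β → ℕ) : Prop :=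
  ∀ Φ : MvPolynomial (Fin β × Fin n) K, MH τ Φ → (∀ P ∈ E, ev Φ (vc P) = 0) → ¬ NZ A Φ

lemma slot' {A : Fin β → AbV K n} {E : Set (Bp A K)} {L : ℕ}
    {Ψ : MvPolynomial ((Fin L × Fin β) × Fin n) K} {σ : Fin L × Fin β → ℕ} (hΨ : MH σ Ψ)
    {F : Type} [Field F] [Algebra K F] (Q : Fin L → Bp A F) (a : Fin L)
    (hE : Gnr A E (fun c => σ (a, c)))
    (hQ : ev Ψ (vcT Q) ≠ 0) :
    ∃ P ∈ E, ev Ψ (vcT (Function.update Q a (Dns.bc F P))) ≠ 0 := by
  classical
  by_contra hcon
  push Not at hcon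
  let b := Module.Basis.ofVectorSpace K F
  let r : (((Fin L × Fin β) × Fin n) →₀ ℕ) → F := fun M =>
    algebraMap K F (coeff M Ψ) * ∏ l ∈ Finset.univ.erase a, Dns.mon M l (vc (Q l))
  have hval : ∀ Y : Bp A F, ev Ψ (vcT (Function.update Q a Y)) =
      ∑ M ∈ Ψ.support, r M * Dns.mon M a (vc Y) := by
    intro Y
    rw [Dns.ev_blocks]
    refine Finset.sum_congr rfl fun M _ => ?_
    have h1 : (fun b => vcT (Function.update Q a Y) (a, b)) = vc Y := by
      funext b
      simp [vcT, vc]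
    have h2 : ∏ l ∈ Finset.univ.erase a,
        Dns.mon M l (fun b => vcT (Function.update Q a Y) (l, b)) =
        ∏ l ∈ Finset.univ.erase a, Dns.mon M l (vc (Q l)) := by
      refine Finset.prod_congr rfl fun l hl => ?_
      have hla : l ≠ a := (Finset.mem_erase.1 hl).1
      congr 1
      funext b
      simp [vcT, vc, hla]
    rw [← Finset.mul_prod_erase Finset.univ _ (Finset.mem_univ a), h1, h2]
    simp only [r]
    ring
  let G := fun α => ∑ M ∈ Ψ.support, monomial (Dns.ea a M) (b.repr (r M) α)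
  have hGMH : ∀ α, MH (fun c => σ (a, c)) (G α) := by
    intro α
    refine MH_sum _ _ _ fun M hM => ?_
    intro m hm j
    have hm2 := Finset.mem_of_subset support_monomial_subset hm
    rw [Finset.mem_singleton] at hm2
    rw [hm2]
    exact hΨ M hM (a, j)
  have hGev : ∀ α (F' : Type) [Field F'] [Algebra K F'] (u : Fin β → Fin n → F'),
      ev (G α) u = ∑ M ∈ Ψ.support, algebraMap K F' (b.repr (r M) α) * Dns.mon M a u := by
    intro α F' _ _ u
    have h1 : ev (G α) u =
        ∑ M ∈ Ψ.support, ev (monomial (Dns.ea a M) (b.repr (r M) α)) u := by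
      simp only [G, ev, map_sum]
    rw [h1]
    exact Finset.sum_congr rfl fun M _ => Dns.ev_mono a M _ u
  have hG0 : ∀ α, ev (G α) (vc (Q a)) = 0 := by
    intro α
    by_contra hne
    refine hE (G α) (hGMH α) (fun P hP => ?_) ⟨F, inferInstance, inferInstance, Q a, hne⟩
    have h1 := hcon P hP
    rw [hval] at h1
    have h2 : ∑ M ∈ Ψ.support, Dns.mon M a (vc P) • r M = 0 := by
      rw [← h1]
      refine Finset.sum_congr rfl fun M _ => ?_
      rw [Dns.mon_bc, Algebra.smul_def, mul_comm]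
    have h3 := congrArg (fun y => b.repr y α) h2
    simp only [map_sum, map_smul, map_zero, Finsupp.coe_zero, Pi.zero_apply,
      Finsupp.finsetSum_apply, Finsupp.smul_apply, smul_eq_mul] at h3
    rw [hGev, ← h3]
    refine Finset.sum_congr rfl fun M _ => ?_
    rw [Algebra.algebraMap_self_apply, mul_comm]
  apply hQ
  have h0 := hval (Q a)
  rw [Function.update_eq_self] at h0
  rw [h0]
  set W := Ψ.support.biUnion (fun M => (b.repr (r M)).support) with hW
  have hr : ∀ M ∈ Ψ.support, r M = ∑ α ∈ W, algebraMap K F (b.repr (r M) α) * b α := by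
    intro M hM
    have h1 := b.linearCombination_repr (r M)
    rw [Finsupp.linearCombination_apply] at h1
    have h2 := Finsupp.sum_of_support_subset (b.repr (r M)) (s := W)
      (Finset.subset_biUnion_of_mem (fun M => (b.repr (r M)).support) hM)
      (fun i z => z • b i) (fun _ _ => zero_smul _ _)
    exact (h1.symm.trans h2).trans (Finset.sum_congr rfl fun α _ => Algebra.smul_def _ _)
  have h5 : ∑ M ∈ Ψ.support, r M * Dns.mon M a (vc (Q a)) =
      ∑ α ∈ W, b α * ev (G α) (vc (Q a)) := by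
    have h6 : ∀ M ∈ Ψ.support, r M * Dns.mon M a (vc (Q a)) =
        ∑ α ∈ W, b α * (algebraMap K F (b.repr (r M) α) * Dns.mon M a (vc (Q a))) := by
      intro M hM
      conv_lhs => rw [hr M hM]
      rw [Finset.sum_mul]
      refine Finset.sum_congr rfl fun α _ => ?_
      ring
    rw [Finset.sum_congr rfl h6, Finset.sum_comm]
    refine Finset.sum_congr rfl fun α _ => ?_
    rw [hGev, Finset.mul_sum]
  rw [h5]
  exact Finset.sum_eq_zero fun α _ => by rw [hG0, mul_zero]

/-- tuples of elements of `E` -/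
lemma dens' {A : Fin β → AbV K n} {E : Set (Bp A K)} {L : ℕ}
    {Ψ : MvPolynomial ((Fin L × Fin β) × Fin n) K} {σ : Fin L × Fin β → ℕ} (hΨ : MH σ Ψ)
    (hE : ∀ a, Gnr A E (fun c => σ (a, c)))
    {F : Type} [Field F] [Algebra K F] (Q0 : Fin L → Bp A F) (hQ0 : ev Ψ (vcT Q0) ≠ 0) :
    ∃ q : Fin L → Bp A K, (∀ l, q l ∈ E) ∧ ev Ψ (vcT q) ≠ 0 := by
  classical
  have key : ∀ T : Finset (Fin L), ∃ q : Fin L → Bp A K, (∀ l ∈ T, q l ∈ E) ∧
      ∃ Q : Fin L → Bp A F, (∀ l ∈ T, Q l = Dns.bc F (q l)) ∧ ev Ψ (vcT Q) ≠ 0 := by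
    intro T
    induction T using Finset.induction_on with
    | empty => exact ⟨fun _ => 0, by simp, Q0, by simp, hQ0⟩
    | insert a T ha ih =>
      obtain ⟨q, hq, Q, hQ, hne⟩ := ih
      obtain ⟨P, hP, hne2⟩ := slot' hΨ Q a (hE a) hne
      refine ⟨Function.update q a P, fun l hl => ?_,
        Function.update Q a (Dns.bc F P), fun l hl => ?_, hne2⟩
      · by_cases hla : l = a
        · subst hla
          rw [Function.update_self]
          exact hP
        · rw [Function.update_of_ne hla]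
          exact hq l ((Finset.mem_insert.1 hl).resolve_left hla)
      · by_cases hla : l = a
        · subst hla
          rw [Function.update_self, Function.update_self]
        · rw [Function.update_of_ne hla, Function.update_of_ne hla]
          exact hQ l ((Finset.mem_insert.1 hl).resolve_left hla)
  obtain ⟨q, hq, Q, hQ, hne⟩ := key Finset.univ
  refine ⟨q, fun l => hq l (Finset.mem_univ _), fun h0 => hne ?_⟩
  have h1 : vcT Q = fun p c => algebraMap K F (vcT q p c) := by
    funext p c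
    unfold vcT
    rw [hQ p.1 (Finset.mem_univ _)]
    rfl
  have h2 : ev Ψ (fun p c => algebraMap K F (vcT q p c)) = algebraMap K F (ev Ψ (vcT q)) := by
    unfold ev
    exact (MvPolynomial.comp_aeval_apply (f := fun p : (Fin L × Fin β) × Fin n => vcT q p.1 p.2)
      (Algebra.ofId K F) Ψ).symm
  rw [h1, h2, h0, map_zero]

end slot

section rows

variable {K : Type} [Field K] {n β : ℕ} (A : Fin β → AbV K n)

/-- the rows of the forms for the differences `R (i + 1) - R 0` -/
noncomputable def Rw {L : ℕ} (c0 : Fin L × Fin β → Fin n) :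
    Gr L β → Fin n → MvPolynomial ((Fin (L + 1) × Fin β) × Fin n) K :=
  Sum.elim (fun p c => Dns.pull
      (![(p.1.succ, p.2), (0, p.2)] : Fin 2 → Fin (L + 1) × Fin β) ((A p.2).Λ (c0 p) c))
    (fun b c => X ((0, b), c))

lemma MH_Rw {L : ℕ} (c0 : Fin L × Fin β → Fin n) (l : Gr L β) :
    ∃ σ, ∀ c, MH σ (Rw A c0 l c) := by
  classical
  rcases l with p | b
  · exact ⟨_, fun c => MH_pull' _ ((A p.2).Λ_hom (c0 p) c)⟩
  · exact ⟨_, fun c => Gen.MH_X (0, b) c⟩

/-- the differences -/
def df {A : Fin β → AbV K n} {F : Type} [Field F] [Algebra K F] {L : ℕ}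
    (R : Fin (L + 1) → Bp A F) : Fin L → Bp A F := fun i => R i.succ - R 0

lemma ev_Rw {L : ℕ} {F : Type} [Field F] [Algebra K F] (R : Fin (L + 1) → Bp A F) :
    ∃ s : Fin L × Fin β → F, (∀ p, s p ≠ 0) ∧ ∀ (c0 : Fin L × Fin β → Fin n) (l : Gr L β),
      (fun c => ev (Rw A c0 l c) (vcT R)) = (Sum.elim (fun p => s p *
        ((R p.1.succ + R 0) p.2).1 (c0 p)) (fun _ => 1) : Gr L β → F) l • vcS (df R) (R 0) l := by
  choose s hs h using fun p : Fin L × Fin β => (A p.2).Λ_spec F (R p.1.succ p.2) (R 0 p.2)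
  refine ⟨s, hs, fun c0 l => ?_⟩
  rcases l with p | b
  · funext c
    unfold Rw
    rw [Sum.elim_inl, Sum.elim_inl, Dns.ev_pull]
    have h1 : (fun l => vcT R ((![(p.1.succ, p.2), (0, p.2)] :
        Fin 2 → Fin (L + 1) × Fin β) l)) = ![(R p.1.succ p.2).1, (R 0 p.2).1] := by
      funext l
      fin_cases l <;> rfl
    rw [h1, h p (c0 p) c, ← mul_assoc]
    rfl
  · funext c
    unfold Rw
    rw [Sum.elim_inr, Sum.elim_inr, one_smul]
    simp only [ev, aeval_X]
    rfl

/-- Sets of points outside hypersurfaces of bounded degree contain tuples in general position. -/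
theorem pick {L : ℕ} {Ξ : MvPolynomial (Gr L β × Fin n) K} {σ : Gr L β → ℕ} (hΞ : MH σ Ξ)
    (hN : Gen.N (Bl A L) Ξ) :
    ∃ d0 : ℕ, ∀ E : Set (Bp A K), (∀ τ : Fin β → ℕ, (∀ b, τ b ≤ d0) → Gnr A E τ) →
      ∃ R : Fin (L + 1) → Bp A K, (∀ l, R l ∈ E) ∧ ev Ξ (vcS (df R) (R 0)) ≠ 0 := by
  classical
  obtain ⟨F, iF, iA, v, hv, hne⟩ := hN
  have h1 : ∀ p : Fin L × Fin β, ∃ Q : (A p.2).Pt F, Q.1 = v (Sum.inl p) := fun p =>
    hv (Sum.inl p)
  have h2 : ∀ b : Fin β, ∃ Q : (A b).Pt F, Q.1 = v (Sum.inr b) := fun b => hv (Sum.inr b)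
  choose Q hQ using h1
  choose P hP using h2
  let R : Fin (L + 1) → Bp A F := Fin.cons P (fun i => (P : Bp A F) + fun b => Q (i, b))
  have hR0 : R 0 = P := rfl
  have hRs : ∀ i : Fin L, R i.succ = (P : Bp A F) + fun b => Q (i, b) := fun i => by
    simp only [R, Fin.cons_succ]
  have hvR : vcS (df R) (R 0) = v := by
    funext l
    rcases l with p | b
    · change (df R p.1 p.2).1 = _
      rw [← hQ]
      congr 1
      unfold df
      rw [hRs, hR0, add_sub_cancel_left]
    · change (R 0 b).1 = _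
      rw [hR0, hP]
  obtain ⟨s, hs, hrow⟩ := ev_Rw A R
  have h3 : ∀ p : Fin L × Fin β, ∃ c, ((R p.1.succ + R 0) p.2).1 c = 1 := by
    intro p
    obtain ⟨c, hc, -⟩ := ((R p.1.succ + R 0) p.2).2.1
    exact ⟨c, hc⟩
  choose c0 hc0 using h3
  choose σ' hσ' using fun l => MH_Rw A c0 l
  have hMH := MH_cmp hΞ (Rw A c0) σ' hσ'
  have hneR : ev (Pool.Agent.TH954.X.cmp Ξ (Rw A c0)) (vcT R) ≠ 0 := by
    rw [ev_cmp]
    have h4 : (fun (l : Gr L β) (c : Fin n) => ev (Rw A c0 l c) (vcT R)) =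
        fun l => (Sum.elim (fun p => s p *
        ((R p.1.succ + R 0) p.2).1 (c0 p)) (fun _ => 1) : Gr L β → F) l •
          vcS (df R) (R 0) l := by
      funext l
      exact hrow c0 l
    rw [h4, ev_smul hΞ, hvR]
    refine mul_ne_zero (Finset.prod_ne_zero_iff.2 fun l _ => pow_ne_zero _ ?_) hne
    rcases l with p | b
    · simp only [Sum.elim_inl, hc0, mul_one]
      exact hs p
    · simp only [Sum.elim_inr]
      exact one_ne_zero
  refine ⟨∑ p, ∑ l, σ l * σ' l p, fun E hE => ?_⟩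
  obtain ⟨q, hq, hq2⟩ := dens' hMH (E := E) (fun a => hE _ (fun b =>
    Finset.single_le_sum (f := fun p => ∑ l, σ l * σ' l p) (fun _ _ => Nat.zero_le _)
      (Finset.mem_univ (a, b)))) R hneR
  refine ⟨q, hq, fun h0 => hq2 ?_⟩
  obtain ⟨s', -, hrow'⟩ := ev_Rw A q
  rw [ev_cmp]
  have h4 : (fun (l : Gr L β) (c : Fin n) => ev (Rw A c0 l c) (vcT q)) =
      fun l => (Sum.elim (fun p => s' p *
        ((q p.1.succ + q 0) p.2).1 (c0 p)) (fun _ => 1) : Gr L β → K) l •
        vcS (df q) (q 0) l := by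
    funext l
    exact hrow' c0 l
  rw [h4, ev_smul hΞ, h0, mul_zero]

end rows

end Pool.Agent.J4H27.AB
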