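import Pool.Agent.J4H27.AB.Lin

/-!
# Independence of the coordinates over an extension field

Adapted from `Pool.Agent.TH954.X.Gen`.
-/

set_option autoImplicit false
set_option linter.unusedSectionVars false

open MvPolynomial Pool.Agent.TH954.X

namespace Pool.Agent.J4H27.AB

section rep

variable {K : Type} [Field K] {n : ℕ} {ι : Type} [Fintype ι] {Ω : Type} [Field Ω] [Algebra K Ω]

/-- a bound for the degrees -/
noncomputable def bdO (C : ι → Blk K n) (q : MvPolynomial ((i : ι) × Fin (C i).g) Ω) : ℕ :=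
  1 + ∑ m ∈ q.support, ∑ s, m s

lemma lt_bdO (C : ι → Blk K n) (q : MvPolynomial ((i : ι) × Fin (C i).g) Ω)
    {m : ((i : ι) × Fin (C i).g) →₀ ℕ} (hm : m ∈ q.support) (i : ι) :
    ∑ c, m ⟨i, c⟩ < bdO C q := by
  have h1 : ∑ c, m ⟨i, c⟩ ≤ ∑ s, m s := by
    rw [Fintype.sum_sigma]
    exact Finset.single_le_sum (f := fun i : ι => ∑ c, m ⟨i, c⟩) (fun _ _ => Nat.zero_le _)
      (Finset.mem_univ i)
  have h2 : ∑ s, m s ≤ ∑ m ∈ q.support, ∑ s, m s :=
    Finset.single_le_sum (f := fun m : ((i : ι) × Fin (C i).g) →₀ ℕ => ∑ s, m s)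
      (fun _ _ => Nat.zero_le _) hm
  unfold bdO
  omega

open Classical in
/-- homogenisation in the group `a`, the other groups being specialised -/
noncomputable def hmO (C : ι → Blk K n) (q : MvPolynomial ((i : ι) × Fin (C i).g) Ω)
    {F : Type} [Field F] [Algebra K F] (φ : Ω →ₐ[K] F)
    (y : ((i : ι) × Fin (C i).g) → F) (a : ι) :
    MvPolynomial (Option (Fin (C a).g)) F :=
  ∑ m ∈ q.support, MvPolynomial.C (φ (coeff m q) *
      ∏ i ∈ Finset.univ.erase a, ∏ c, y ⟨i, c⟩ ^ m ⟨i, c⟩) *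
    (X none ^ (bdO C q - ∑ c, m ⟨a, c⟩) * ∏ c, X (some c) ^ m ⟨a, c⟩)

lemma hmO_hom (C : ι → Blk K n) (q : MvPolynomial ((i : ι) × Fin (C i).g) Ω)
    {F : Type} [Field F] [Algebra K F] (φ : Ω →ₐ[K] F)
    (y : ((i : ι) × Fin (C i).g) → F) (a : ι) :
    (hmO C q φ y a).IsHomogeneous (bdO C q) := by
  unfold hmO
  refine IsHomogeneous.sum _ _ _ (fun m hm => ?_)
  have h1 : (X none ^ (bdO C q - ∑ c, m ⟨a, c⟩) * ∏ c, X (some c) ^ m ⟨a, c⟩ :
      MvPolynomial (Option (Fin (C a).g)) F).IsHomogeneous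
      ((bdO C q - ∑ c, m ⟨a, c⟩) + ∑ c, m ⟨a, c⟩) :=
    (isHomogeneous_X_pow _ _).mul (IsHomogeneous.prod _ _ _ (fun c _ => isHomogeneous_X_pow _ _))
  rw [Nat.sub_add_cancel (lt_bdO C q hm a).le] at h1
  exact h1.C_mul _

open Classical in
lemma hmO_eval (C : ι → Blk K n) (q : MvPolynomial ((i : ι) × Fin (C i).g) Ω)
    {F : Type} [Field F] [Algebra K F] (φ : Ω →ₐ[K] F)
    (y : ((i : ι) × Fin (C i).g) → F) (a : ι)
    {F' : Type} [Field F'] [Algebra F F'] (t : Option (Fin (C a).g) → F') :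
    aeval t (hmO C q φ y a) = ∑ m ∈ q.support, algebraMap F F' (φ (coeff m q) *
      ∏ i ∈ Finset.univ.erase a, ∏ c, y ⟨i, c⟩ ^ m ⟨i, c⟩) *
    (t none ^ (bdO C q - ∑ c, m ⟨a, c⟩) * ∏ c, t (some c) ^ m ⟨a, c⟩) := by
  unfold hmO
  simp only [map_sum, map_mul, map_pow, map_prod, aeval_X, aeval_C]

/-- the value of `q` at `y`, by means of the embedding `φ` -/
noncomputable def evO (C : ι → Blk K n) (q : MvPolynomial ((i : ι) × Fin (C i).g) Ω)
    {F : Type} [Field F] [Algebra K F] (φ : Ω →ₐ[K] F) (y : ((i : ι) × Fin (C i).g) → F) : F :=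
  ∑ m ∈ q.support, φ (coeff m q) * ∏ i, ∏ c, y ⟨i, c⟩ ^ m ⟨i, c⟩

lemma replaceO (C : ι → Blk K n) (hind : ∀ i, (C i).Ind)
    (q : MvPolynomial ((i : ι) × Fin (C i).g) Ω) (hq : q ≠ 0) (T : Finset ι) :
    ∃ (F : Type) (_ : Field F) (_ : Algebra K F) (φ : Ω →ₐ[K] F)
      (y : ((i : ι) × Fin (C i).g) → F),
      evO C q φ y ≠ 0 ∧ ∀ i ∈ T, ∃ v : Fin n → F, Gen.Pv (C i) v ∧ v (C i).z0 ≠ 0 ∧
        ∀ a, y ⟨i, a⟩ = v ((C i).z a) / v (C i).z0 := by
  classical
  induction T using Finset.induction_on with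
  | empty =>
    let R := MvPolynomial ((i : ι) × Fin (C i).g) Ω
    refine ⟨FractionRing R, inferInstance, inferInstance,
      IsScalarTower.toAlgHom K Ω (FractionRing R),
      fun s => algebraMap R (FractionRing R) (X s), ?_, by simp⟩
    have h1 : evO C q (IsScalarTower.toAlgHom K Ω (FractionRing R))
        (fun s => algebraMap R (FractionRing R) (X s)) = algebraMap R (FractionRing R) q := by
      conv_rhs => rw [q.as_sum]
      rw [map_sum]
      unfold evO
      refine Finset.sum_congr rfl (fun m _ => ?_)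
      rw [monomial_eq, map_mul, Finsupp.prod_fintype _ _ (fun _ => pow_zero _), map_prod,
        Fintype.prod_sigma]
      simp only [map_pow]
      congr 1
    rw [h1]
    intro h
    exact hq ((IsFractionRing.injective R (FractionRing R)) (by rw [h, map_zero]))
  | insert a T ha ih =>
    obtain ⟨F, iF, iA, φ0, y, hy, hT⟩ := ih
    -- the form is nonzero
    have hsplit : ∀ (F' : Type) [Field F'] (y' : ((i : ι) × Fin (C i).g) → F')
        (m : ((i : ι) × Fin (C i).g) →₀ ℕ),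
        ∏ i, ∏ c, y' ⟨i, c⟩ ^ m ⟨i, c⟩ = (∏ c, y' ⟨a, c⟩ ^ m ⟨a, c⟩) *
          ∏ i ∈ Finset.univ.erase a, ∏ c, y' ⟨i, c⟩ ^ m ⟨i, c⟩ := by
      intro F' _ y' m
      exact (Finset.mul_prod_erase Finset.univ (fun i => ∏ c, y' ⟨i, c⟩ ^ m ⟨i, c⟩)
        (Finset.mem_univ a)).symm
    have hG0 : hmO C q φ0 y a ≠ 0 := by
      intro h0
      apply hy
      have h1 := hmO_eval C q φ0 y a (F' := F) (fun o => Option.elim o 1 (fun c => y ⟨a, c⟩))
      rw [h0, map_zero] at h1
      unfold evO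
      rw [h1]
      refine Finset.sum_congr rfl (fun m _ => ?_)
      rw [hsplit F y m]
      simp only [Algebra.algebraMap_self, RingHom.id_apply, Option.elim, one_pow, one_mul]
      ring
    obtain ⟨F', iF', iKF', iFF', itower, P, hP⟩ := hind a F _ _ (hmO_hom C q φ0 y a) hG0
    rw [aeval_rename, hmO_eval] at hP
    set v : Fin n → F' := (C a).vec F' P with hv
    simp only [Function.comp_apply, Option.elim] at hP
    have hz : v (C a).z0 ≠ 0 := by
      intro h0
      apply hP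
      refine Finset.sum_eq_zero (fun m hm => ?_)
      have := lt_bdO C q hm a
      rw [h0, zero_pow (by omega), zero_mul, mul_zero]
    let φ : F →ₐ[K] F' := IsScalarTower.toAlgHom K F F'
    let y' : ((i : ι) × Fin (C i).g) → F' := fun s =>
      if s.1 = a then v ((C s.1).z s.2) / v (C s.1).z0 else φ (y s)
    have hy'a : ∀ c, y' ⟨a, c⟩ = v ((C a).z c) / v (C a).z0 := fun c => if_pos rfl
    have hy'i : ∀ i, i ≠ a → ∀ c, y' ⟨i, c⟩ = φ (y ⟨i, c⟩) := fun i hi c => if_neg hi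
    refine ⟨F', iF', iKF', φ.comp φ0, y', ?_, ?_⟩
    · have h1 : (v (C a).z0) ^ bdO C q * evO C q (φ.comp φ0) y' ≠ 0 := by
        intro h2
        apply hP
        rw [← h2]
        unfold evO
        rw [Finset.mul_sum]
        refine Finset.sum_congr rfl (fun m hm => ?_)
        rw [hsplit F' y' m, Gen.pow_sub_mul _ hz (fun c => v ((C a).z c)) (fun c => m ⟨a, c⟩) _
          (lt_bdO C q hm a).le]
        have h3 : ∏ i ∈ Finset.univ.erase a, ∏ c, y' ⟨i, c⟩ ^ m ⟨i, c⟩ =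
            φ (∏ i ∈ Finset.univ.erase a, ∏ c, y ⟨i, c⟩ ^ m ⟨i, c⟩) := by
          rw [map_prod]
          refine Finset.prod_congr rfl (fun i hi => ?_)
          rw [map_prod]
          refine Finset.prod_congr rfl (fun c _ => ?_)
          rw [hy'i i (Finset.ne_of_mem_erase hi), map_pow]
        rw [h3]
        simp only [hy'a]
        rw [map_mul]
        have h4 : ∀ x : F, algebraMap F F' x = φ x := fun _ => rfl
        rw [h4, h4, AlgHom.comp_apply]
        ring
      exact right_ne_zero_of_mul h1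
    · intro i hi
      by_cases hia : i = a
      · subst hia
        exact ⟨v, ⟨P, rfl⟩, hz, hy'a⟩
      · obtain ⟨w, hw1, hw2, hw3⟩ := hT i ((Finset.mem_insert.1 hi).resolve_left hia)
        refine ⟨fun c => φ (w c), hw1.map φ, fun h => hw2 ((map_eq_zero φ).1 h), fun c => ?_⟩
        rw [hy'i i hia, hw3, map_div₀]

/-! ### The monomials -/

/-- the form attached to exponents at most `D` -/
noncomputable def mb (K : Type) [Field K] {n : ℕ} {ι : Type} [Fintype ι] (C : ι → Blk K n) (D : ℕ)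
    (e : (i : ι) → Fin (C i).g → Fin (D + 1)) : MvPolynomial (ι × Fin n) K :=
  ∏ i, (X (i, (C i).z0) ^ ((C i).g * D - ∑ c, (e i c : ℕ)) *
    ∏ c, X (i, (C i).z c) ^ (e i c : ℕ))

lemma e_le (C : ι → Blk K n) (D : ℕ) (e : (i : ι) → Fin (C i).g → Fin (D + 1)) (i : ι) :
    ∑ c, (e i c : ℕ) ≤ (C i).g * D := by
  calc ∑ c, (e i c : ℕ) ≤ ∑ _c : Fin (C i).g, D :=
        Finset.sum_le_sum (fun c _ => Nat.lt_succ_iff.mp (e i c).2)
    _ = (C i).g * D := by simp

lemma MH_mb (C : ι → Blk K n) (D : ℕ) (e : (i : ι) → Fin (C i).g → Fin (D + 1)) :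
    MH (fun i => (C i).g * D) (mb K C D e) := by
  classical
  unfold mb
  have h1 : ∀ i : ι, MH (fun j => if j = i then (C i).g * D else 0)
      (X (i, (C i).z0) ^ ((C i).g * D - ∑ c, (e i c : ℕ)) *
        ∏ c, X (i, (C i).z c) ^ (e i c : ℕ) : MvPolynomial (ι × Fin n) K) := by
    intro i
    have h2 := MH_mul (MH_pow (Gen.MH_X (K := K) i (C i).z0) ((C i).g * D - ∑ c, (e i c : ℕ)))
      (MH_prod Finset.univ _ _ (fun (c : Fin (C i).g) _ =>
        MH_pow (Gen.MH_X (K := K) i ((C i).z c)) (e i c : ℕ)))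
    have h3 : (fun j : ι => ((C i).g * D - ∑ c, (e i c : ℕ)) * (if j = i then 1 else 0) +
        ∑ c, (e i c : ℕ) * (if j = i then 1 else 0)) =
        fun j => if j = i then (C i).g * D else 0 := by
      funext j
      by_cases hj : j = i
      · simp only [if_pos hj, mul_one]
        exact Nat.sub_add_cancel (e_le C D e i)
      · simp only [if_neg hj, mul_zero, Finset.sum_const_zero, add_zero]
    rw [h3] at h2
    exact h2
  have h4 := MH_prod Finset.univ _ _ (fun i _ => h1 i)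
  have h5 : (fun j : ι => ∑ i, if j = i then (C i).g * D else 0) =
      fun i => (C i).g * D := by
    funext j
    simp
  rw [h5] at h4
  exact h4

lemma ev_mb (C : ι → Blk K n) (D : ℕ) (e : (i : ι) → Fin (C i).g → Fin (D + 1))
    {F : Type} [Field F] [Algebra K F] (v : ι → Fin n → F) (hz : ∀ i, v i (C i).z0 ≠ 0) :
    ev (mb K C D e) v = (∏ i, v i (C i).z0 ^ ((C i).g * D)) *
      ∏ i, ∏ c, (v i ((C i).z c) / v i (C i).z0) ^ (e i c : ℕ) := by
  unfold ev mb
  rw [map_prod, ← Finset.prod_mul_distrib]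
  refine Finset.prod_congr rfl (fun i _ => ?_)
  rw [map_mul, map_pow, map_prod, aeval_X]
  simp only [map_pow, aeval_X]
  exact Gen.pow_sub_mul _ (hz i) (fun c => v i ((C i).z c)) (fun c => (e i c : ℕ)) _
    (e_le C D e i)

/-- the polynomial with given coefficients -/
noncomputable def qO [DecidableEq ι] (C : ι → Blk K n) (D : ℕ)
    (x : ((i : ι) → Fin (C i).g → Fin (D + 1)) → Ω) :
    MvPolynomial ((i : ι) × Fin (C i).g) Ω :=
  ∑ e, monomial (Finsupp.equivFunOnFinite.symm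
    (fun s : (i : ι) × Fin (C i).g => (e s.1 s.2 : ℕ))) (x e)

lemma coeff_qO [DecidableEq ι] (C : ι → Blk K n) (D : ℕ)
    (x : ((i : ι) → Fin (C i).g → Fin (D + 1)) → Ω)
    (e : (i : ι) → Fin (C i).g → Fin (D + 1)) :
    coeff (Finsupp.equivFunOnFinite.symm
      (fun s : (i : ι) × Fin (C i).g => (e s.1 s.2 : ℕ))) (qO C D x) = x e := by
  classical
  unfold qO
  rw [coeff_sum, Finset.sum_eq_single e]
  · rw [coeff_monomial, if_pos rfl]
  · intro e' _ hne
    rw [coeff_monomial, if_neg]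
    intro h
    apply hne
    have h1 := Finsupp.equivFunOnFinite.symm.injective h
    funext i c
    exact Fin.ext (congrFun h1 ⟨i, c⟩)
  · intro h
    exact absurd (Finset.mem_univ _) h

lemma evO_qO [DecidableEq ι] (C : ι → Blk K n) (D : ℕ)
    (x : ((i : ι) → Fin (C i).g → Fin (D + 1)) → Ω)
    {F : Type} [Field F] [Algebra K F] (φ : Ω →ₐ[K] F) (y : ((i : ι) × Fin (C i).g) → F) :
    evO C (qO C D x) φ y = ∑ e, φ (x e) * ∏ i, ∏ c, y ⟨i, c⟩ ^ (e i c : ℕ) := by
  classical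
  have h1 : ∀ q : MvPolynomial ((i : ι) × Fin (C i).g) Ω,
      evO C q φ y = eval₂ (φ : Ω →+* F) y q := by
    intro q
    rw [eval₂_eq']
    unfold evO
    refine Finset.sum_congr rfl (fun m _ => ?_)
    rw [Fintype.prod_sigma]
    rfl
  rw [h1]
  unfold qO
  rw [eval₂_sum]
  refine Finset.sum_congr rfl (fun e _ => ?_)
  rw [eval₂_monomial, Finsupp.prod_fintype _ _ (fun _ => pow_zero _), Fintype.prod_sigma]
  rfl

/-- a nontrivial combination, with coefficients in `Ω`, of the monomials does not vanish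
identically -/
lemma nonvan [DecidableEq ι] (C : ι → Blk K n) (hind : ∀ i, (C i).Ind) (D : ℕ)
    (x : ((i : ι) → Fin (C i).g → Fin (D + 1)) → Ω) (e0 : (i : ι) → Fin (C i).g → Fin (D + 1))
    (hx : x e0 ≠ 0) :
    ∃ (F : Type) (_ : Field F) (_ : Algebra K F) (φ : Ω →ₐ[K] F) (v : ι → Fin n → F),
      (∀ i, Gen.Pv (C i) (v i)) ∧ ∑ e, φ (x e) * ev (mb K C D e) v ≠ 0 := by
  classical
  have hq : qO C D x ≠ 0 := by
    intro h
    apply hx
    rw [← coeff_qO C D x e0, h, coeff_zero]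
  obtain ⟨F, iF, iA, φ, y, hy, hT⟩ := replaceO C hind (qO C D x) hq Finset.univ
  choose v hv1 hv2 hv3 using fun i => hT i (Finset.mem_univ i)
  refine ⟨F, iF, iA, φ, v, hv1, ?_⟩
  rw [evO_qO] at hy
  have h1 : ∑ e, φ (x e) * ev (mb K C D e) v = (∏ i, v i (C i).z0 ^ ((C i).g * D)) *
      ∑ e, φ (x e) * ∏ i, ∏ c, y ⟨i, c⟩ ^ (e i c : ℕ) := by
    rw [Finset.mul_sum]
    refine Finset.sum_congr rfl (fun e _ => ?_)
    rw [ev_mb C D e v hv2]
    simp only [hv3]
    ring
  rw [h1]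
  exact mul_ne_zero (Finset.prod_ne_zero_iff.2 fun i _ => pow_ne_zero _ (hv2 i)) hy

end rep

end Pool.Agent.J4H27.AB
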